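import Mathlib
import Pool.Agent.TH967.DP.AS

/-! Directed polymers in windows: confined partition functions with general start, end and future. -/

set_option autoImplicit false

open Classical

namespace Pool.Agent.Q220.DPW

open TH967.DP

variable {d : ℕ}

/-- the walk `w` started at `x` at time `t` stays in `A` -/
def InA (A : ℕ → Set (Fin d → ℤ)) (t : ℕ) (x : Fin d → ℤ) {n : ℕ} (w : Fin n → Step d) : Prop :=
  ∀ i ≤ n, x + pos w i ∈ A (t + i)

/-- partition function of the walks started at `x` at time `t` which stay in `A` for `n` steps, with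
the weight `g` at the end point -/
noncomputable def Z (β : ℝ) (η : ℕ → (Fin d → ℤ) → ℝ) (A : ℕ → Set (Fin d → ℤ)) (n t : ℕ)
    (g : (Fin d → ℤ) → ℝ) (x : Fin d → ℤ) : ℝ :=
  ∑ w : Fin n → Step d,
    if InA A t x w then Real.exp (β * energy (shift t x η) w) * g (x + pos w n) else 0

/-- no confinement -/
abbrev Full (d : ℕ) : ℕ → Set (Fin d → ℤ) := fun _ => Set.univ

lemma shift_shift (η : ℕ → (Fin d → ℤ) → ℝ) (t m : ℕ) (x y : Fin d → ℤ) :
    shift m y (shift t x η) = shift (t + m) (x + y) η := by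
  unfold shift
  ext i z
  rw [add_assoc, add_assoc]

lemma inA_append {A : ℕ → Set (Fin d → ℤ)} {t : ℕ} {x : Fin d → ℤ} {m n : ℕ}
    (u : Fin m → Step d) (v : Fin n → Step d) :
    InA A t x (Fin.append u v) ↔ InA A t x u ∧ InA A (t + m) (x + pos u m) v := by
  constructor
  · intro h
    refine ⟨fun i hi => ?_, fun i hi => ?_⟩
    · have := h i (by omega)
      rwa [pos_append_left u v hi] at this
    · have := h (m + i) (by omega)
      rw [pos_append_right, ← add_assoc, ← add_assoc] at this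
      exact this
  · rintro ⟨h1, h2⟩ i hi
    by_cases him : i ≤ m
    · rw [pos_append_left u v him]
      exact h1 i him
    · obtain ⟨j, rfl⟩ := Nat.exists_eq_add_of_le (not_le.1 him).le
      rw [pos_append_right, ← add_assoc, ← add_assoc]
      exact h2 j (by omega)

lemma Z_comp (β : ℝ) (η : ℕ → (Fin d → ℤ) → ℝ) (A : ℕ → Set (Fin d → ℤ)) (m n t : ℕ)
    (g : (Fin d → ℤ) → ℝ) (x : Fin d → ℤ) :
    Z β η A (m + n) t g x = Z β η A m t (Z β η A n (t + m) g) x := by
  unfold Z
  rw [sum_append]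
  apply Finset.sum_congr rfl
  intro u _
  by_cases hu : InA A t x u
  · rw [if_pos hu, Finset.mul_sum]
    apply Finset.sum_congr rfl
    intro v _
    by_cases hv : InA A (t + m) (x + pos u m) v
    · rw [if_pos ((inA_append u v).2 ⟨hu, hv⟩), if_pos hv, energy_append, shift_shift,
        pos_append_right, mul_add, Real.exp_add, add_assoc, mul_assoc]
    · rw [if_neg (fun h => hv ((inA_append u v).1 h).2), if_neg hv, mul_zero]
  · rw [if_neg hu]
    apply Finset.sum_eq_zero
    intro v _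
    rw [if_neg (fun h => hu ((inA_append u v).1 h).1)]

lemma Z_nonneg (β : ℝ) (η : ℕ → (Fin d → ℤ) → ℝ) (A : ℕ → Set (Fin d → ℤ)) (n t : ℕ)
    {g : (Fin d → ℤ) → ℝ} (hg : ∀ y, 0 ≤ g y) (x : Fin d → ℤ) : 0 ≤ Z β η A n t g x := by
  unfold Z
  apply Finset.sum_nonneg
  intro w _
  split_ifs
  · exact mul_nonneg (Real.exp_pos _).le (hg _)
  · exact le_rfl

lemma Z_mono (β : ℝ) (η : ℕ → (Fin d → ℤ) → ℝ) {A A' : ℕ → Set (Fin d → ℤ)} {n t : ℕ}
    {g g' : (Fin d → ℤ) → ℝ} {x : Fin d → ℤ} (hg' : ∀ y, 0 ≤ g' y)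
    (h : ∀ w : Fin n → Step d, InA A t x w → InA A' t x w ∧ g (x + pos w n) ≤ g' (x + pos w n)) :
    Z β η A n t g x ≤ Z β η A' n t g' x := by
  unfold Z
  apply Finset.sum_le_sum
  intro w _
  by_cases hw : InA A t x w
  · rw [if_pos hw, if_pos (h w hw).1]
    exact mul_le_mul_of_nonneg_left (h w hw).2 (Real.exp_pos _).le
  · rw [if_neg hw]
    split_ifs
    · exact mul_nonneg (Real.exp_pos _).le (hg' _)
    · exact le_rfl

lemma Z_smul (β : ℝ) (η : ℕ → (Fin d → ℤ) → ℝ) (A : ℕ → Set (Fin d → ℤ)) (n t : ℕ) (c : ℝ)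
    (g : (Fin d → ℤ) → ℝ) (x : Fin d → ℤ) :
    Z β η A n t (fun y => c * g y) x = c * Z β η A n t g x := by
  unfold Z
  rw [Finset.mul_sum]
  apply Finset.sum_congr rfl
  intro w _
  split_ifs
  · ring
  · ring

lemma Z_sum {ι : Type*} (β : ℝ) (η : ℕ → (Fin d → ℤ) → ℝ) (A : ℕ → Set (Fin d → ℤ)) (n t : ℕ)
    (S : Finset ι) (f : ι → (Fin d → ℤ) → ℝ) (x : Fin d → ℤ) :
    Z β η A n t (fun y => ∑ s ∈ S, f s y) x = ∑ s ∈ S, Z β η A n t (f s) x := by
  unfold Z
  rw [Finset.sum_comm]
  apply Finset.sum_congr rfl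
  intro w _
  split_ifs
  · rw [Finset.mul_sum]
  · simp

/-- the sites which can be reached in `t` steps -/
def Reach (t : ℕ) (x : Fin d → ℤ) : Prop := ∀ k, |x k| ≤ (t : ℤ)

lemma Reach.step {t n : ℕ} {x : Fin d → ℤ} (h : Reach t x) (w : Fin n → Step d) {i : ℕ}
    (hi : i ≤ n) : Reach (t + i) (x + pos w i) := by
  intro k
  have h1 := h k
  have h2 : |pos w i k| ≤ (i : ℤ) := by
    have e : pos w i = pos (fun j : Fin i => w ⟨j.val, by omega⟩) i := by
      obtain ⟨r, rfl⟩ := Nat.exists_eq_add_of_le hi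
      have e2 : w = Fin.append (fun j : Fin i => w ⟨j.val, by omega⟩)
          (fun j : Fin r => w ⟨i + j.val, by omega⟩) := by
        ext1 j
        refine Fin.addCases (fun a => ?_) (fun a => ?_) j
        · rw [Fin.append_left]; rfl
        · rw [Fin.append_right]; rfl
      conv_lhs => rw [e2]
      rw [pos_append_left _ _ le_rfl]
    rw [e]
    exact abs_pos_le _ _ _
  rw [Pi.add_apply]
  push_cast
  exact (abs_add_le _ _).trans (add_le_add h1 h2)

lemma energy_bd {η : ℕ → (Fin d → ℤ) → ℝ} {l t n : ℕ} {R : ℝ} (hG : Good η l R)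
    {x : Fin d → ℤ} (hx : Reach t x) (htl : t + n ≤ l) (w : Fin n → Step d) :
    |energy (shift t x η) w| ≤ n * R := by
  unfold energy
  refine (Finset.abs_sum_le_sum_abs _ _).trans ?_
  have : ∀ i : Fin n, |shift t x η (i.val + 1) (pos w (i.val + 1))| ≤ R := by
    intro i
    unfold shift
    have hi := i.isLt
    apply hG _ (by omega) (by omega)
    intro k
    refine (hx.step w (i := i.val + 1) (by omega) k).trans ?_
    have : t + (i.val + 1) ≤ l := by omega
    exact_mod_cast this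
  refine (Finset.sum_le_sum (fun i _ => this i)).trans ?_
  rw [Finset.sum_const, Finset.card_univ, Fintype.card_fin, nsmul_eq_mul]

lemma Z_le {β : ℝ} {η : ℕ → (Fin d → ℤ) → ℝ} {A : ℕ → Set (Fin d → ℤ)} {l t n : ℕ} {R : ℝ}
    (hβ : 0 < β) (hG : Good η l R) {x : Fin d → ℤ} (hx : Reach t x) (htl : t + n ≤ l)
    {g : (Fin d → ℤ) → ℝ} {C : ℝ} (hC : 0 ≤ C)
    (hg : ∀ w : Fin n → Step d, InA A t x w → g (x + pos w n) ≤ C) :
    Z β η A n t g x ≤ (2 * (d : ℝ)) ^ n * Real.exp (β * (n * R)) * C := by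
  unfold Z
  have h1 : ∀ w : Fin n → Step d, (if InA A t x w then
      Real.exp (β * energy (shift t x η) w) * g (x + pos w n) else 0) ≤
      Real.exp (β * (n * R)) * C := by
    intro w
    split_ifs with h
    · have := (abs_le.1 (energy_bd hG hx htl w)).2
      calc Real.exp (β * energy (shift t x η) w) * g (x + pos w n)
          ≤ Real.exp (β * energy (shift t x η) w) * C :=
            mul_le_mul_of_nonneg_left (hg w h) (Real.exp_pos _).le
        _ ≤ Real.exp (β * (n * R)) * C := by gcongr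
    · positivity
  refine (Finset.sum_le_sum (fun w _ => h1 w)).trans ?_
  rw [Finset.sum_const, Finset.card_univ, Fintype.card_fun, Fintype.card_prod, Fintype.card_fin,
    Fintype.card_bool, Fintype.card_fin, nsmul_eq_mul]
  push_cast
  apply le_of_eq
  ring

lemma le_Z {β : ℝ} {η : ℕ → (Fin d → ℤ) → ℝ} {A : ℕ → Set (Fin d → ℤ)} {l t n : ℕ} {R : ℝ}
    (hβ : 0 < β) (hG : Good η l R) {x : Fin d → ℤ} (hx : Reach t x) (htl : t + n ≤ l)
    {g : (Fin d → ℤ) → ℝ} (hg : ∀ y, 0 ≤ g y) (w : Fin n → Step d) (hw : InA A t x w) :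
    Real.exp (-(β * (n * R))) * g (x + pos w n) ≤ Z β η A n t g x := by
  unfold Z
  refine le_trans ?_ (Finset.single_le_sum (f := fun w : Fin n → Step d => if InA A t x w then
    Real.exp (β * energy (shift t x η) w) * g (x + pos w n) else 0)
    (fun w _ => by
      split_ifs
      · exact mul_nonneg (Real.exp_pos _).le (hg _)
      · exact le_rfl) (Finset.mem_univ w))
  rw [if_pos hw]
  have := (abs_le.1 (energy_bd hG hx htl w)).1
  apply mul_le_mul_of_nonneg_right _ (hg _)
  rw [Real.exp_le_exp]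
  nlinarith

lemma inA_full (t : ℕ) (x : Fin d → ℤ) {n : ℕ} (w : Fin n → Step d) : InA (Full d) t x w :=
  fun _ _ => Set.mem_univ _

/-- the shifted tube -/
def sh (A : ℕ → Finset (Fin d → ℤ)) (z : Fin d → ℤ) : ℕ → Set (Fin d → ℤ) :=
  fun i => {y | y - z ∈ A i}

/-- total weight of the walks which follow the shifted tube during the `m` steps after time `t`,
with start points of the parity class `p` -/
noncomputable def S (β : ℝ) (η : ℕ → (Fin d → ℤ) → ℝ) (A : ℕ → Finset (Fin d → ℤ)) (m t : ℕ)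
    (p : ZMod 2) (z : Fin d → ℤ) : ℝ :=
  ∑ u ∈ (A t).filter (fun u => par u = p), Z β η (sh A z) m t (fun _ => 1) (z + u)

lemma S_nonneg (β : ℝ) (η : ℕ → (Fin d → ℤ) → ℝ) (A : ℕ → Finset (Fin d → ℤ)) (m t : ℕ)
    (p : ZMod 2) (z : Fin d → ℤ) : 0 ≤ S β η A m t p z :=
  Finset.sum_nonneg fun _ _ => Z_nonneg _ _ _ _ _ (fun _ => zero_le_one) _

/-- one-site indicator -/
noncomputable def dl (y : Fin d → ℤ) : (Fin d → ℤ) → ℝ := fun v => if v = y then 1 else 0

lemma dl_nonneg (y v : Fin d → ℤ) : 0 ≤ dl y v := by unfold dl; split_ifs <;> norm_num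

lemma dl_le (y v : Fin d → ℤ) : dl y v ≤ 1 := by unfold dl; split_ifs <;> norm_num

lemma sub_dl (hd : 0 < d) {β R δ L : ℝ} (hβ : 0 < β) {η : ℕ → (Fin d → ℤ) → ℝ} {l : ℕ}
    (hG : Good η l R) {A : ℕ → Finset (Fin d → ℤ)} {c : ℕ → Fin d → ℤ} {D M T : ℕ}
    (hA : ∀ i, ∀ y ∈ A i, ∀ k, |y k - c i k| ≤ (D : ℤ))
    (hT : ∀ i, ∑ k, |c (i + T) k - c i k| + 2 * d * D + 4 * D * M ≤ (T : ℤ))
    {t m : ℕ} (htl : t + (T + m + T) ≤ l) {x : Fin d → ℤ} (hx : x ∈ A t) (hr : Reach t x)
    {j : ℕ} (hj : j ≤ M)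
    (hS : S β η A m (t + T) (par x + T) 0 * Real.exp L ≤
      S β η A m (t + T) (par x + T) (Pi.single ⟨0, hd⟩ ((4 * D * j : ℕ) : ℤ)))
    (hδ : (2 * (d : ℝ)) ^ (2 * T) * Real.exp (4 * (β * (T * R))) * ((A (t + T)).card : ℝ) ≤
      δ * Real.exp L) (y : Fin d → ℤ) :
    Z β η (fun i => (A i : Set (Fin d → ℤ))) (T + m + T) t (dl y) x ≤
      δ * Z β η (Full d) (T + m + T) t (dl y) x := by
  set z : Fin d → ℤ := Pi.single ⟨0, hd⟩ ((4 * D * j : ℕ) : ℤ) with hz
  set p : ZMod 2 := par x + T with hp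
  set AA : ℕ → Set (Fin d → ℤ) := fun i => (A i : Set (Fin d → ℤ)) with hAA
  have hsh0 : sh A 0 = AA := by
    ext i v
    simp [sh, hAA]
  set Q := Z β η (Full d) (T + m + T) t (dl y) x with hQ
  have hQ0 : 0 ≤ Q := Z_nonneg _ _ _ _ _ (dl_nonneg y) _
  set C1 := (2 * (d : ℝ)) ^ T * Real.exp (β * (T * R)) with hC1
  have hC1p : 0 ≤ C1 := by positivity
  by_cases hex : ∃ w : Fin (T + m + T) → Step d, InA AA t x w ∧ x + pos w (T + m + T) = y
  swap
  · have h0 : Z β η AA (T + m + T) t (dl y) x = 0 := by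
      unfold Z
      apply Finset.sum_eq_zero
      intro w _
      by_cases hw : InA AA t x w
      · rw [if_pos hw]
        have : dl y (x + pos w (T + m + T)) = 0 := by
          unfold dl
          rw [if_neg (fun h => hex ⟨w, hw, h⟩)]
        rw [this, mul_zero]
      · rw [if_neg hw]
    rw [h0]
    have hδ0 : 0 ≤ δ := by
      have h1 : 0 ≤ δ * Real.exp L := le_trans (by positivity) hδ
      by_contra hneg
      push Not at hneg
      have := mul_neg_of_neg_of_pos hneg (Real.exp_pos L)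
      linarith
    exact mul_nonneg hδ0 hQ0
  obtain ⟨w0, hw0, hw0y⟩ := hex
  have hyA : y ∈ A (t + (T + m + T)) := by
    have := hw0 _ le_rfl
    rw [hw0y] at this
    exact this
  have hypar : par y = par x + ((T + m + T : ℕ) : ZMod 2) := by
    rw [← hw0y, par_add, par_pos w0 le_rfl]
  have hzl1 : ∑ k, |z k| ≤ 4 * (D : ℤ) * M := by
    have h2 : ∑ k, |z k| = ((4 * D * j : ℕ) : ℤ) := by
      rw [Finset.sum_eq_single ⟨0, hd⟩]
      · rw [hz, Pi.single_eq_same]
        exact abs_of_nonneg (by positivity)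
      · intro k _ hk
        rw [hz, Pi.single_eq_of_ne hk, abs_zero]
      · intro h
        exact absurd (Finset.mem_univ _) h
    rw [h2]
    have h3 : 4 * D * j ≤ 4 * D * M := Nat.mul_le_mul_left _ hj
    exact_mod_cast h3
  have hparz : par z = 0 := by
    unfold par
    rw [Finset.sum_eq_zero]
    intro k _
    by_cases hk : k = ⟨0, hd⟩
    · subst hk
      rw [hz, Pi.single_eq_same]
      have h4 : ((4 : ZMod 2)) = 0 := by decide
      push_cast
      rw [h4]
      ring
    · rw [hz, Pi.single_eq_of_ne hk]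
      simp
  -- distances
  have hdist : ∀ (i : ℕ) (a b : Fin d → ℤ), a ∈ A i → b ∈ A (i + T) →
      ∑ k, |b k - a k| + 4 * (D : ℤ) * M ≤ (T : ℤ) := by
    intro i a b ha hb
    have h1 : ∀ k, |b k - a k| ≤ |c (i + T) k - c i k| + 2 * (D : ℤ) := by
      intro k
      have a1 := abs_le.1 (hA i a ha k)
      have a2 := abs_le.1 (hA (i + T) b hb k)
      have a3 := abs_le.1 (le_refl |c (i + T) k - c i k|)
      rw [abs_le]
      constructor <;> linarith [a1.1, a1.2, a2.1, a2.2, a3.1, a3.2]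
    have h2 := Finset.sum_le_sum (fun k (_ : k ∈ (Finset.univ : Finset (Fin d))) => h1 k)
    rw [Finset.sum_add_distrib, Finset.sum_const, Finset.card_univ, Fintype.card_fin,
      nsmul_eq_mul] at h2
    have h3 := hT i
    nlinarith
  -- upper bound
  have hup : Z β η AA (T + m + T) t (dl y) x ≤ C1 * (C1 * S β η A m (t + T) p 0) := by
    rw [Z_comp, Z_comp]
    have e1 := Z_le (A := AA) (n := T) (g := Z β η AA m (t + T) (Z β η AA T (t + (T + m)) (dl y)))
      (C := C1 * S β η A m (t + T) p 0) hβ hG hr (by omega)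
      (mul_nonneg hC1p (S_nonneg _ _ _ _ _ _ _)) (by
        intro w hw
        have hrw := hr.step w le_rfl
        have hmem : x + pos w T ∈ A (t + T) := hw T le_rfl
        calc Z β η AA m (t + T) (Z β η AA T (t + (T + m)) (dl y)) (x + pos w T)
            ≤ Z β η AA m (t + T) (fun _ => C1 * 1) (x + pos w T) := by
              apply Z_mono _ _ (fun _ => by positivity)
              intro w' hw'
              refine ⟨hw', ?_⟩
              have hrw' := hrw.step w' le_rfl
              have := Z_le (A := AA) (n := T) (t := t + T + m) (g := dl y) (C := 1) hβ hG hrw'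
                (by omega) zero_le_one (fun _ _ => dl_le y _)
              rw [← add_assoc]
              exact this
          _ = C1 * Z β η AA m (t + T) (fun _ => 1) (x + pos w T) := Z_smul _ _ _ _ _ _ _ _
          _ ≤ C1 * S β η A m (t + T) p 0 := by
              apply mul_le_mul_of_nonneg_left _ hC1p
              unfold S
              have hm : x + pos w T ∈ (A (t + T)).filter (fun u => par u = p) := by
                rw [Finset.mem_filter]
                refine ⟨hmem, ?_⟩
                rw [par_add, par_pos w le_rfl]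
              refine le_trans (le_of_eq ?_) (Finset.single_le_sum
                (f := fun u => Z β η (sh A 0) m (t + T) (fun _ => 1) (0 + u))
                (fun u _ => Z_nonneg _ _ _ _ _ (fun _ => zero_le_one) _) hm)
              simp only [hsh0, zero_add])
    exact e1
  -- lower bound
  set q := Real.exp (-(β * (T * R))) with hq
  have hqp : 0 < q := Real.exp_pos _
  have hlow : ∀ u ∈ (A (t + T)).filter (fun u => par u = p),
      q * (q * Z β η (sh A z) m (t + T) (fun _ => 1) (z + u)) ≤ Q := by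
    intro u hu
    obtain ⟨huA, hup⟩ := Finset.mem_filter.1 hu
    obtain ⟨w1, hw1⟩ := exists_walk hd T (z + u - x) (by
      have h1 := hdist t x u hx huA
      have h2 : ∑ k, |(z + u - x) k| ≤ ∑ k, |z k| + ∑ k, |u k - x k| := by
        rw [← Finset.sum_add_distrib]
        apply Finset.sum_le_sum
        intro k _
        simp only [Pi.sub_apply, Pi.add_apply]
        rw [add_sub_assoc]
        exact abs_add_le _ _
      linarith) (by
      rw [par_sub, par_add, hparz, hup, hp]
      ring)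
    have hend : x + pos w1 T = z + u := by rw [hw1]; abel
    have hr1 : Reach (t + T) (z + u) := by
      rw [← hend]
      exact hr.step w1 le_rfl
    have hQe : Q = Z β η (Full d) T t (Z β η (Full d) (m + T) (t + T) (dl y)) x := by
      rw [hQ, add_assoc, Z_comp]
    rw [hQe]
    have h1 := le_Z (A := Full d) (n := T) (g := Z β η (Full d) (m + T) (t + T) (dl y)) hβ hG hr
      (by omega) (fun v => Z_nonneg _ _ _ _ _ (dl_nonneg y) _) w1 (inA_full _ _ _)
    rw [hend] at h1
    refine le_trans ?_ h1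
    apply mul_le_mul_of_nonneg_left _ hqp.le
    rw [Z_comp]
    calc q * Z β η (sh A z) m (t + T) (fun _ => 1) (z + u)
        = Z β η (sh A z) m (t + T) (fun _ => q * 1) (z + u) := (Z_smul _ _ _ _ _ _ _ _).symm
      _ ≤ Z β η (Full d) m (t + T) (Z β η (Full d) T (t + T + m) (dl y)) (z + u) := by
        apply Z_mono _ _ (fun v => Z_nonneg _ _ _ _ _ (dl_nonneg y) _)
        intro w hw
        refine ⟨inA_full _ _ _, ?_⟩
        have hv : z + u + pos w m - z ∈ A (t + T + m) := hw m le_rfl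
        obtain ⟨w2, hw2⟩ := exists_walk hd T (y - (z + u + pos w m)) (by
          have e3 : t + (T + m + T) = t + T + m + T := by ring
          rw [e3] at hyA
          have h1 := hdist (t + T + m) _ y hv hyA
          have h2 : ∑ k, |(y - (z + u + pos w m)) k| ≤
              ∑ k, |z k| + ∑ k, |y k - (z + u + pos w m - z) k| := by
            rw [← Finset.sum_add_distrib]
            apply Finset.sum_le_sum
            intro k _
            simp only [Pi.sub_apply, Pi.add_apply]
            have : y k - (z k + u k + pos w m k) = -z k + (y k - (z k + u k + pos w m k - z k)) := by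
              ring
            rw [this]
            refine (abs_add_le _ _).trans ?_
            rw [abs_neg]
          linarith) (by
          rw [par_sub, par_add, par_add, hparz, hup, hp, hypar, par_pos w le_rfl]
          push_cast
          ring_nf)
        have h3 := le_Z (A := Full d) (n := T) (t := t + T + m) (g := dl y) hβ hG
          (hr1.step w le_rfl) (by omega) (dl_nonneg y) w2 (inA_full _ _ _)
        have h4 : z + u + pos w m + pos w2 T = y := by rw [hw2]; abel
        rw [h4] at h3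
        have h5 : dl y y = 1 := by unfold dl; rw [if_pos rfl]
        rw [h5] at h3
        exact h3
  have hsum : q * (q * S β η A m (t + T) p z) ≤ ((A (t + T)).card : ℝ) * Q := by
    unfold S
    rw [Finset.mul_sum, Finset.mul_sum]
    refine (Finset.sum_le_sum hlow).trans ?_
    rw [Finset.sum_const, nsmul_eq_mul]
    apply mul_le_mul_of_nonneg_right _ hQ0
    exact_mod_cast Finset.card_filter_le _ _
  -- combine
  have hL := Real.exp_pos L
  have hE : Real.exp (β * (T * R)) * q = 1 := by rw [hq, ← Real.exp_add]; simp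
  set E := Real.exp (β * (T * R)) with hEdef
  have hEp : 0 < E := Real.exp_pos _
  have e4 : Real.exp (4 * (β * (T * R))) = E ^ 4 := by rw [hEdef, ← Real.exp_nat_mul]; norm_num
  have e5 : (2 * (d : ℝ)) ^ (2 * T) = ((2 * (d : ℝ)) ^ T) ^ 2 := by rw [← pow_mul, mul_comm 2 T]
  rw [e4, e5] at hδ
  set b := (2 * (d : ℝ)) ^ T with hb
  have hb0 : 0 ≤ b := by positivity
  set S0 := S β η A m (t + T) p 0 with hS0
  set Sz := S β η A m (t + T) p z with hSz
  have hSz1 : Sz ≤ E ^ 2 * (((A (t + T)).card : ℝ) * Q) := by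
    calc Sz = E ^ 2 * (q * (q * Sz)) := by
          have : E ^ 2 * (q * (q * Sz)) = (E * q) * (E * q) * Sz := by ring
          rw [this, hE]; ring
      _ ≤ _ := by gcongr
  have hfin : Z β η AA (T + m + T) t (dl y) x * Real.exp L ≤ δ * Q * Real.exp L := by
    calc Z β η AA (T + m + T) t (dl y) x * Real.exp L
        ≤ C1 * (C1 * S0) * Real.exp L := by gcongr
      _ = C1 ^ 2 * (S0 * Real.exp L) := by ring
      _ ≤ C1 ^ 2 * Sz := by gcongr
      _ ≤ C1 ^ 2 * (E ^ 2 * (((A (t + T)).card : ℝ) * Q)) := by gcongr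
      _ = (b ^ 2 * E ^ 4 * ((A (t + T)).card : ℝ)) * Q := by rw [hC1]; ring
      _ ≤ (δ * Real.exp L) * Q := by gcongr
      _ = δ * Q * Real.exp L := by ring
  exact le_of_mul_le_mul_right hfin hL

/-- the comparison in one sub-window, for all weights at the end point -/
lemma sub_g (hd : 0 < d) {β R δ L : ℝ} (hβ : 0 < β) {η : ℕ → (Fin d → ℤ) → ℝ} {l : ℕ}
    (hG : Good η l R) {A : ℕ → Finset (Fin d → ℤ)} {c : ℕ → Fin d → ℤ} {D M T : ℕ}
    (hA : ∀ i, ∀ y ∈ A i, ∀ k, |y k - c i k| ≤ (D : ℤ))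
    (hT : ∀ i, ∑ k, |c (i + T) k - c i k| + 2 * d * D + 4 * D * M ≤ (T : ℤ))
    {t m : ℕ} (htl : t + (T + m + T) ≤ l) {x : Fin d → ℤ} (hx : x ∈ A t) (hr : Reach t x)
    {j : ℕ} (hj : j ≤ M)
    (hS : S β η A m (t + T) (par x + T) 0 * Real.exp L ≤
      S β η A m (t + T) (par x + T) (Pi.single ⟨0, hd⟩ ((4 * D * j : ℕ) : ℤ)))
    (hδ : (2 * (d : ℝ)) ^ (2 * T) * Real.exp (4 * (β * (T * R))) * ((A (t + T)).card : ℝ) ≤
      δ * Real.exp L) {g : (Fin d → ℤ) → ℝ} (hg : ∀ y, 0 ≤ g y) :
    Z β η (fun i => (A i : Set (Fin d → ℤ))) (T + m + T) t g x ≤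
      δ * Z β η (Full d) (T + m + T) t g x := by
  set AA : ℕ → Set (Fin d → ℤ) := fun i => (A i : Set (Fin d → ℤ)) with hAA
  set F := A (t + (T + m + T)) with hF
  have hδ0 : 0 ≤ δ := by
    have h1 : 0 ≤ δ * Real.exp L := le_trans (by positivity) hδ
    by_contra hneg
    push Not at hneg
    have := mul_neg_of_neg_of_pos hneg (Real.exp_pos L)
    linarith
  calc Z β η AA (T + m + T) t g x
      ≤ Z β η AA (T + m + T) t (fun v => ∑ y ∈ F, g y * dl y v) x := by
        apply Z_mono _ _ (fun v => Finset.sum_nonneg fun y _ => mul_nonneg (hg y) (dl_nonneg y v))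
        intro w hw
        refine ⟨hw, ?_⟩
        have hm : x + pos w (T + m + T) ∈ F := hw _ le_rfl
        refine le_trans (le_of_eq ?_) (Finset.single_le_sum
          (f := fun y => g y * dl y (x + pos w (T + m + T)))
          (fun y _ => mul_nonneg (hg y) (dl_nonneg y _)) hm)
        simp only [dl, if_true, mul_one]
    _ = ∑ y ∈ F, g y * Z β η AA (T + m + T) t (dl y) x := by
        rw [Z_sum]
        simp_rw [Z_smul]
    _ ≤ ∑ y ∈ F, g y * (δ * Z β η (Full d) (T + m + T) t (dl y) x) := by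
        apply Finset.sum_le_sum
        intro y _
        exact mul_le_mul_of_nonneg_left (sub_dl hd hβ hG hA hT htl hx hr hj hS hδ y) (hg y)
    _ = δ * Z β η (Full d) (T + m + T) t (fun v => ∑ y ∈ F, g y * dl y v) x := by
        rw [Z_sum, Finset.mul_sum]
        simp_rw [Z_smul]
        apply Finset.sum_congr rfl
        intro y _
        ring
    _ ≤ δ * Z β η (Full d) (T + m + T) t g x := by
        apply mul_le_mul_of_nonneg_left _ hδ0
        apply Z_mono _ _ hg
        intro w hw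
        refine ⟨hw, ?_⟩
        simp only [dl, mul_ite, mul_one, mul_zero]
        rw [Finset.sum_ite_eq]
        split_ifs
        · exact le_rfl
        · exact hg _

/-- from a sub-window to the whole window -/
lemma window {β δ : ℝ} {η : ℕ → (Fin d → ℤ) → ℝ} {A : ℕ → Set (Fin d → ℤ)} {t N r : ℕ}
    (hδ : 0 ≤ δ)
    (h : ∀ x ∈ A t, Reach t x → par x = (t : ZMod 2) → ∀ g : (Fin d → ℤ) → ℝ, (∀ y, 0 ≤ g y) →
      Z β η A N t g x ≤ δ * Z β η (Full d) N t g x) {g : (Fin d → ℤ) → ℝ} (hg : ∀ y, 0 ≤ g y) :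
    Z β η A (t + (N + r)) 0 g 0 ≤ δ * Z β η (Full d) (t + (N + r)) 0 g 0 := by
  rw [Z_comp, Z_comp, ← Z_smul]
  apply Z_mono _ _ (fun y => mul_nonneg hδ (Z_nonneg _ _ _ _ _ hg _))
  intro w hw
  refine ⟨inA_full _ _ _, ?_⟩
  have h1 : (0 : Fin d → ℤ) + pos w t ∈ A t := by
    have := hw t le_rfl
    rwa [zero_add] at this
  have hr : Reach t ((0 : Fin d → ℤ) + pos w t) := by
    have h0 : Reach 0 (0 : Fin d → ℤ) := fun k => by simp
    have := h0.step w le_rfl
    rwa [zero_add] at this
  have hp : par ((0 : Fin d → ℤ) + pos w t) = (t : ZMod 2) := by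
    rw [zero_add, par_pos w le_rfl]
  simp only [Nat.zero_add]
  rw [Z_comp β η A N r, Z_comp β η (Full d) N r]
  refine (h _ h1 hr hp _ (fun y => Z_nonneg _ _ _ _ _ hg _)).trans ?_
  apply mul_le_mul_of_nonneg_left _ hδ
  apply Z_mono _ _ (fun y => Z_nonneg _ _ _ _ _ hg _)
  intro w' _
  refine ⟨inA_full _ _ _, ?_⟩
  apply Z_mono _ _ hg
  intro w'' _
  exact ⟨inA_full _ _ _, le_rfl⟩

end Pool.Agent.Q220.DPW
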