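import Mathlib
import Pool.Agent.Q220.DPW.Op

/-! Directed polymers in windows: the probability that a tube beats all its translates. -/

set_option autoImplicit false

open Classical MeasureTheory ProbabilityTheory

namespace Pool.Agent.Q220.DPW

open TH967.DP

variable {d : ℕ}

/-- the space-time sites of the tube during the `m` steps after time `t` -/
abbrev Sites (A : ℕ → Finset (Fin d → ℤ)) (m t : ℕ) : Type :=
  Σ i : Fin m, {y : Fin d → ℤ // y ∈ A (t + (i.val + 1))}

/-- the walks which follow the tube during the `m` steps after time `t` -/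
abbrev Pa (A : ℕ → Finset (Fin d → ℤ)) (m t : ℕ) (p : ZMod 2) : Type :=
  {q : {u : Fin d → ℤ // u ∈ (A t).filter (fun u => par u = p)} × (Fin m → Step d) //
    InA (fun i => (A i : Set (Fin d → ℤ))) t q.1.1 q.2}

/-- the site of the walk `w` at time `t + i + 1` -/
noncomputable def site {A : ℕ → Finset (Fin d → ℤ)} {m t : ℕ} {p : ZMod 2} (w : Pa A m t p)
    (i : Fin m) : Sites A m t :=
  ⟨i, ⟨w.1.1.1 + pos w.1.2 (i.val + 1), w.2 (i.val + 1) (by have := i.isLt; omega)⟩⟩

/-- the visited sites -/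
noncomputable def vis {A : ℕ → Finset (Fin d → ℤ)} {m t : ℕ} {p : ZMod 2} (w : Pa A m t p) :
    Finset (Sites A m t) :=
  Finset.univ.image (site w)

lemma site_inj {A : ℕ → Finset (Fin d → ℤ)} {m t : ℕ} {p : ZMod 2} (w : Pa A m t p) :
    Function.Injective (site w) := by
  intro i j h
  exact congrArg Sigma.fst h

lemma card_vis {A : ℕ → Finset (Fin d → ℤ)} {m t : ℕ} {p : ZMod 2} (w : Pa A m t p) :
    (vis w).card = m := by
  unfold vis
  rw [Finset.card_image_of_injective _ (site_inj w)]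
  simp

lemma S_eq (β : ℝ) (η : ℕ → (Fin d → ℤ) → ℝ) (A : ℕ → Finset (Fin d → ℤ)) (m t : ℕ)
    (p : ZMod 2) (z : Fin d → ℤ) :
    S β η A m t p z = ZZ β (vis (A := A) (m := m) (t := t) (p := p))
      (fun s => η (t + (s.1.val + 1)) (z + s.2.1)) := by
  unfold ZZ S Z
  have h1 : ∀ w : Pa A m t p, Real.exp (β * ∑ s ∈ vis w, η (t + (s.1.val + 1)) (z + s.2.1)) =
      Real.exp (β * energy (shift t (z + w.1.1.1) η) w.1.2) := by
    intro w
    congr 2
    unfold vis energy shift
    rw [Finset.sum_image (fun i _ j _ h => site_inj w h)]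
    apply Finset.sum_congr rfl
    intro i _
    unfold site
    rw [add_assoc]
  simp_rw [h1]
  conv_rhs => rw [← Finset.sum_subtype (p := fun q : {u : Fin d → ℤ // u ∈ (A t).filter (fun u => par u = p)} ×
    (Fin m → Step d) => InA (fun i => (A i : Set (Fin d → ℤ))) t q.1.1 q.2)
    (Finset.univ.filter (fun q : {u : Fin d → ℤ // u ∈ (A t).filter (fun u => par u = p)} ×
    (Fin m → Step d) => InA (fun i => (A i : Set (Fin d → ℤ))) t q.1.1 q.2)) (by
      intro x; simp) (fun q => Real.exp (β * energy (shift t (z + q.1.1) η) q.2)),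
    Finset.sum_filter, Fintype.sum_prod_type]
  conv_rhs => rw [Finset.sum_coe_sort ((A t).filter (fun u => par u = p)) (fun u => ∑ w : Fin m → Step d,
    if InA (fun i => (A i : Set (Fin d → ℤ))) t u w then
      Real.exp (β * energy (shift t (z + u) η) w) else 0)]
  apply Finset.sum_congr rfl
  intro u _
  apply Finset.sum_congr rfl
  intro w _
  have : InA (sh A z) t (z + u) w ↔ InA (fun i => (A i : Set (Fin d → ℤ))) t u w := by
    unfold InA sh
    apply forall_congr'
    intro i
    apply forall_congr'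
    intro _
    have : z + u + pos w i - z = u + pos w i := by abel
    simp only [Set.mem_ofPred_eq, this]
    rfl
  simp only [mul_one]
  by_cases h : InA (sh A z) t (z + u) w
  · rw [if_pos h, if_pos (this.1 h)]
  · rw [if_neg h, if_neg (fun h' => h (this.2 h'))]

/-- the translations -/
def zz (hd : 0 < d) (D : ℕ) (j : ℕ) : Fin d → ℤ := Pi.single ⟨0, hd⟩ ((4 * D * j : ℕ) : ℤ)

lemma zz_zero (hd : 0 < d) (D : ℕ) : zz hd D 0 = 0 := by
  unfold zz
  simp

/-- embedding of the sites of the tubes -/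
def em (hd : 0 < d) (D : ℕ) (A : ℕ → Finset (Fin d → ℤ)) (m t : ℕ) {M : ℕ}
    (q : Fin (M + 1) × Sites A m t) : ℕ × (Fin d → ℤ) :=
  (t + (q.2.1.val + 1), zz hd D q.1.val + q.2.2.1)

lemma em_inj (hd : 0 < d) {D : ℕ} (hD : 1 ≤ D) {A : ℕ → Finset (Fin d → ℤ)}
    {c : ℕ → Fin d → ℤ} (hA : ∀ i, ∀ y ∈ A i, ∀ k, |y k - c i k| ≤ (D : ℤ)) (m t M : ℕ) :
    Function.Injective (em (M := M) hd D A m t) := by
  rintro ⟨j, i, y⟩ ⟨j', i', y'⟩ h
  unfold em at h
  simp only [Prod.mk.injEq] at h
  obtain ⟨h1, h2⟩ := h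
  have hi : i = i' := by
    apply Fin.ext
    omega
  subst hi
  have h3 := congrFun h2 ⟨0, hd⟩
  unfold zz at h3
  simp only [Pi.add_apply, Pi.single_eq_same] at h3
  have hx := abs_le.1 (hA _ _ y.2 ⟨0, hd⟩)
  have hx' := abs_le.1 (hA _ _ y'.2 ⟨0, hd⟩)
  have hDz : (1 : ℤ) ≤ D := by exact_mod_cast hD
  have hjj : j = j' := by
    rcases lt_trichotomy j j' with hlt | heq | hgt
    · exfalso
      have : (j.val : ℤ) + 1 ≤ j'.val := by exact_mod_cast hlt
      push_cast at h3
      nlinarith [hx.1, hx.2, hx'.1, hx'.2]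
    · exact heq
    · exfalso
      have : (j'.val : ℤ) + 1 ≤ j.val := by exact_mod_cast hgt
      push_cast at h3
      nlinarith [hx.1, hx.2, hx'.1, hx'.2]
  subst hjj
  have hyy : y = y' := Subtype.ext (add_left_cancel h2)
  subst hyy
  rfl

variable {Ω : Type*} [MeasurableSpace Ω] {P : Measure Ω} [IsProbabilityMeasure P]

lemma card_sites_le {A : ℕ → Finset (Fin d → ℤ)} {a : ℝ} (ha : ∀ i, ((A i).card : ℝ) ≤ a)
    (m t : ℕ) : (Fintype.card (Sites A m t) : ℝ) ≤ m * a := by
  have e : (Fintype.card (Sites A m t)) = ∑ i : Fin m, (A (t + (i.val + 1))).card := by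
    rw [← Nat.card_eq_fintype_card]
    have : Nat.card (Sites A m t) =
        ∑ i : Fin m, Nat.card {y : Fin d → ℤ // y ∈ A (t + (i.val + 1))} := Nat.card_sigma
    rw [this]
    apply Finset.sum_congr rfl
    intro i _
    exact Nat.subtype_card _ (fun x => Iff.rfl)
  rw [e]
  push_cast
  refine (Finset.sum_le_sum (fun i _ => ha _)).trans ?_
  rw [Finset.sum_const, Finset.card_univ, Fintype.card_fin, nsmul_eq_mul]

/-- the event that no translate of the tube beats the tube by a factor `exp L` -/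
def Bd (ω : ℕ → (Fin d → ℤ) → Ω → ℝ) (β : ℝ) (hd : 0 < d) (D M : ℕ)
    (A : ℕ → Finset (Fin d → ℤ)) (m t : ℕ) (p : ZMod 2) (L : ℝ) : Set Ω :=
  {x | ∀ j : Fin (M + 1), S β (fun i y => ω i y x) A m t p (zz hd D j.val) <
    S β (fun i y => ω i y x) A m t p 0 * Real.exp L}

/-- the probability of the event -/
lemma prob_Bd {ω : ℕ → (Fin d → ℤ) → Ω → ℝ} (h : IsEnv P ω) (hd : 0 < d) {β : ℝ}
    (hβ : 0 < β) {a b : ℝ} (hab : a < b) (hp : 0 < (P.map (ω 1 0)).real (Set.Ici b))
    (hm : 0 < (P.map (ω 1 0)).real (Set.Iic a)) {D m : ℕ} (M t : ℕ) (hD : 1 ≤ D) (hmpos : 1 ≤ m)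
    {A : ℕ → Finset (Fin d → ℤ)} {c : ℕ → Fin d → ℤ}
    (hA : ∀ i, ∀ y ∈ A i, ∀ k, |y k - c i k| ≤ (D : ℤ)) {v : ℝ}
    (hv : ∀ i, ((A i).card : ℝ) ≤ v) (p : ZMod 2)
    {L : ℝ} (hL0 : 0 ≤ L) :
    P.real (Bd ω β hd D M A m t p L) ≤
      1 / (M + 1) + M * ((2 * L + 2) * Real.sqrt (v *
        (1 / (P.map (ω 1 0)).real (Set.Ici b) + 1 / (P.map (ω 1 0)).real (Set.Iic a))) /
        ((1 - Real.exp (-(β * (b - a)))) * Real.sqrt m)) := by
  set μ := P.map (ω 1 0) with hμ
  have hprob : IsProbabilityMeasure μ :=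
    Measure.isProbabilityMeasure_map (h.meas 1 0).aemeasurable
  set K := 1 / μ.real (Set.Ici b) + 1 / μ.real (Set.Iic a) with hK
  have hKpos : 0 < K := by positivity
  set q := 1 - Real.exp (-(β * (b - a))) with hq
  have hqpos : 0 < q := by
    rw [hq]
    have : Real.exp (-(β * (b - a))) < 1 := by
      rw [← Real.exp_zero]
      apply Real.exp_lt_exp.2
      have := mul_pos hβ (sub_pos.2 hab)
      linarith
    linarith
  have hmR : (0 : ℝ) < m := by exact_mod_cast hmpos
  have hsq : 0 < Real.sqrt m := Real.sqrt_pos.2 hmR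
  have hsq2 : Real.sqrt m * Real.sqrt m = m := Real.mul_self_sqrt hmR.le
  by_cases hne : Nonempty (Pa A m t p)
  swap
  · have hempty : Bd ω β hd D M A m t p L = ∅ := by
      rw [Set.eq_empty_iff_forall_notMem]
      intro x hx
      have h0 : ∀ z, S β (fun i y => ω i y x) A m t p z = 0 := by
        intro z
        rw [S_eq]
        unfold ZZ
        rw [not_nonempty_iff] at hne
        exact Finset.sum_of_isEmpty _
      have := hx 0
      rw [h0, h0] at this
      simp at this
    rw [hempty, measureReal_empty]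
    positivity
  obtain ⟨w0⟩ := hne
  have hneS : Nonempty (Sites A m t) := ⟨site w0 ⟨0, hmpos⟩⟩
  set Y : Ω → Fin (M + 1) → ℝ := fun x j =>
    YY β (vis (A := A) (m := m) (t := t) (p := p))
      (fun s => ω (em hd D A m t (j, s)).1 (em hd D A m t (j, s)).2 x) with hY
  have hmeas0 : ∀ j : Fin (M + 1), Measurable (fun (x : Ω) (s : Sites A m t) =>
      ω (em hd D A m t (j, s)).1 (em hd D A m t (j, s)).2 x) := by
    intro j
    rw [measurable_pi_iff]
    intro s
    exact h.meas _ _
  have hYm : Measurable Y := by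
    rw [measurable_pi_iff]
    intro j
    exact (measurable_YY β _).comp (hmeas0 j)
  set ρ := (Measure.pi (fun _ : Sites A m t => μ)).map
    (YY β (vis (A := A) (m := m) (t := t) (p := p))) with hρ
  have hρp : IsProbabilityMeasure ρ :=
    Measure.isProbabilityMeasure_map (measurable_YY β _).aemeasurable
  have hlaw : P.map Y = Measure.pi (fun _ : Fin (M + 1) => ρ) := by
    have h1 := law2 h (em_inj (M := M) hd hD hA m t)
    have h2 := Measure.pi_map_pi (μ := fun _ : Fin (M + 1) =>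
      Measure.pi (fun _ : Sites A m t => μ))
      (f := fun _ => YY β (vis (A := A) (m := m) (t := t) (p := p)))
      (fun _ => (measurable_YY β _).aemeasurable)
    have hm1 : Measurable (fun (x : Ω) (j : Fin (M + 1)) (s : Sites A m t) =>
        ω (em hd D A m t (j, s)).1 (em hd D A m t (j, s)).2 x) := by
      rw [measurable_pi_iff]
      exact hmeas0
    have hm2 : Measurable (fun (x : Fin (M + 1) → (Sites A m t → ℝ)) (i : Fin (M + 1)) =>
        YY β (vis (A := A) (m := m) (t := t) (p := p)) (x i)) := by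
      rw [measurable_pi_iff]
      intro i
      exact (measurable_YY β _).comp (measurable_pi_apply i)
    rw [hρ, ← h2, ← h1, Measure.map_map hm2 hm1]
    rfl
  have hS : MeasurableSet {y : Fin (M + 1) → ℝ | ∀ j, y j - L ≤ y 0} := by
    have : {y : Fin (M + 1) → ℝ | ∀ j, y j - L ≤ y 0} =
        ⋂ j, {y : Fin (M + 1) → ℝ | y j - L ≤ y 0} := by
      ext y; simp
    rw [this]
    apply MeasurableSet.iInter
    intro j
    exact measurableSet_le ((measurable_pi_apply j).sub measurable_const) (measurable_pi_apply 0)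
  have hne' : Nonempty (Pa A m t p) := ⟨w0⟩
  have hsub : Bd ω β hd D M A m t p L ⊆ Y ⁻¹' {y : Fin (M + 1) → ℝ | ∀ j, y j - L ≤ y 0} := by
    intro x hx j
    have h1 := hx j
    have h2 : S β (fun i y => ω i y x) A m t p 0 =
        S β (fun i y => ω i y x) A m t p (zz hd D (0 : Fin (M + 1)).val) := by
      rw [Fin.val_zero, zz_zero]
    rw [h2, S_eq, S_eq] at h1
    have e1 := ZZ_pos β (vis (A := A) (m := m) (t := t) (p := p))
      (fun s => ω (t + (s.1.val + 1)) (zz hd D j.val + s.2.1) x)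
    have e2 := ZZ_pos β (vis (A := A) (m := m) (t := t) (p := p))
      (fun s => ω (t + (s.1.val + 1)) (zz hd D (0 : Fin (M + 1)).val + s.2.1) x)
    have h3 := Real.log_lt_log e1 h1
    rw [Real.log_mul e2.ne' (Real.exp_pos L).ne', Real.log_exp] at h3
    have h4 : Y x j = Real.log (ZZ β (vis (A := A) (m := m) (t := t) (p := p))
      (fun s => ω (t + (s.1.val + 1)) (zz hd D j.val + s.2.1) x)) := rfl
    have h5 : Y x 0 = Real.log (ZZ β (vis (A := A) (m := m) (t := t) (p := p))
      (fun s => ω (t + (s.1.val + 1)) (zz hd D (0 : Fin (M + 1)).val + s.2.1) x)) := rfl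
    show Y x j - L ≤ Y x 0
    rw [h4, h5]
    linarith
  refine (measureReal_mono hsub).trans ?_
  rw [← map_measureReal_apply hYm hS, hlaw]
  apply iid_max
  intro y
  have hac := anti_conc (ι := Sites A m t) μ hab hp hm hβ
    (vis (A := A) (m := m) (t := t) (p := p))
    (fun w => card_vis w) (y := y) (L := 2 * L) (by linarith)
  rw [hρ, map_measureReal_apply (measurable_YY β _) measurableSet_Icc]
  set X := (Measure.pi fun _ : Sites A m t => μ).real
    (YY β (vis (A := A) (m := m) (t := t) (p := p)) ⁻¹' Set.Icc y (y + 2 * L)) with hX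
  have hcs := card_sites_le hv m t
  have e : Real.sqrt ((Fintype.card (Sites A m t) : ℝ) * K) ≤ Real.sqrt m * Real.sqrt (v * K) := by
    rw [← Real.sqrt_mul hmR.le]
    apply Real.sqrt_le_sqrt
    rw [← mul_assoc]
    exact mul_le_mul_of_nonneg_right hcs hKpos.le
  rw [le_div_iff₀ (by positivity)]
  have h2 : Real.sqrt m * (X * (q * Real.sqrt m)) ≤
      Real.sqrt m * ((2 * L + 2) * Real.sqrt (v * K)) := by
    calc Real.sqrt m * (X * (q * Real.sqrt m)) = (Real.sqrt m * Real.sqrt m) * q * X := by ring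
      _ = m * q * X := by rw [hsq2]
      _ ≤ (2 * L + 2) * Real.sqrt ((Fintype.card (Sites A m t) : ℝ) * K) := hac
      _ ≤ (2 * L + 2) * (Real.sqrt m * Real.sqrt (v * K)) := by gcongr
      _ = Real.sqrt m * ((2 * L + 2) * Real.sqrt (v * K)) := by ring
  exact le_of_mul_le_mul_left h2 hsq

/-- the sites at times `> t`, resp. `≤ t` -/
@[reducible] def sgm (ω : ℕ → (Fin d → ℤ) → Ω → ℝ) (I : Set ℕ) : MeasurableSpace Ω :=
  ⨆ s ∈ {s : ℕ × (Fin d → ℤ) | s.1 ∈ I}, MeasurableSpace.comap (fun x => ω s.1 s.2 x) inferInstance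

lemma lt_helper {Ω' : Type*} [MeasurableSpace Ω'] {f g : Ω' → ℝ} {c : ℝ} (hf : Measurable f)
    (hg : Measurable g) : MeasurableSet {x | f x < g x * c} :=
  measurableSet_lt hf (hg.mul measurable_const)

lemma meas_Bd (ω : ℕ → (Fin d → ℤ) → Ω → ℝ) (β : ℝ) (hd : 0 < d) (D M : ℕ)
    (A : ℕ → Finset (Fin d → ℤ)) (m t : ℕ) (p : ZMod 2) (L : ℝ) {I : Set ℕ}
    (hI : ∀ i, t < i → i ≤ t + m → i ∈ I) :
    MeasurableSet[sgm ω I] (Bd ω β hd D M A m t p L) := by
  have hs : ∀ z : Fin d → ℤ, Measurable[sgm ω I] (fun x => S β (fun i y => ω i y x) A m t p z) := by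
    intro z
    have e : (fun x => S β (fun i y => ω i y x) A m t p z) =
        (ZZ β (vis (A := A) (m := m) (t := t) (p := p))) ∘
          (fun (x : Ω) (s : Sites A m t) => ω (t + (s.1.val + 1)) (z + s.2.1) x) := by
      ext x
      rw [S_eq]
      rfl
    rw [e]
    have hin : Measurable[sgm ω I] (fun (x : Ω) (s : Sites A m t) =>
        ω (t + (s.1.val + 1)) (z + s.2.1) x) := by
      refine (@measurable_pi_iff Ω (Sites A m t) (fun _ => ℝ) (sgm ω I) _ _).2 ?_
      intro s
      have hs := s.1.isLt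
      have hle : MeasurableSpace.comap (fun x => ω (t + (s.1.val + 1)) (z + s.2.1) x)
          inferInstance ≤ sgm ω I := by
        unfold sgm
        exact le_iSup₂_of_le (f := fun (s : ℕ × (Fin d → ℤ))
          (_ : s ∈ {s : ℕ × (Fin d → ℤ) | s.1 ∈ I}) =>
          MeasurableSpace.comap (fun x => ω s.1 s.2 x) inferInstance)
          (t + (s.1.val + 1), z + s.2.1) (hI _ (by omega) (by omega)) le_rfl
      exact fun B hB => hle _ ⟨B, hB, rfl⟩
    exact @Measurable.comp Ω (Sites A m t → ℝ) ℝ (sgm ω I) _ _ _ _ (measurable_ZZ β _) hin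
  have : Bd ω β hd D M A m t p L = ⋂ j : Fin (M + 1),
      {x | S β (fun i y => ω i y x) A m t p (zz hd D j.val) <
        S β (fun i y => ω i y x) A m t p 0 * Real.exp L} := by
    ext x
    simp [Bd]
  rw [this]
  refine @MeasurableSet.iInter _ _ (sgm ω I) _ _ ?_
  intro j
  exact @lt_helper Ω (sgm ω I) _ _ _ (hs _) (hs 0)

lemma sgm_le {ω : ℕ → (Fin d → ℤ) → Ω → ℝ} (h : IsEnv P ω) (I : Set ℕ) :
    sgm ω I ≤ (inferInstance : MeasurableSpace Ω) := by
  unfold sgm
  exact iSup₂_le fun s _ => (h.meas s.1 s.2).comap_le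

/-- independence of the sub-windows -/
lemma prob_all {ω : ℕ → (Fin d → ℤ) → Ω → ℝ} (h : IsEnv P ω) {N : ℕ} {B : ℕ → Set Ω}
    (hB : ∀ k, MeasurableSet[sgm ω {i | k * N < i ∧ i ≤ (k + 1) * N}] (B k)) {q : ℝ}
    (hq : ∀ k, P.real (B k) ≤ q) (K : ℕ) :
    MeasurableSet[sgm ω {i | i ≤ K * N}] {x | ∀ k < K, x ∈ B k} ∧
      P.real {x | ∀ k < K, x ∈ B k} ≤ q ^ K := by
  induction K with
  | zero =>
    constructor
    · have : {x : Ω | ∀ k < 0, x ∈ B k} = Set.univ := by ext x; simp
      rw [this]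
      exact MeasurableSet.univ
    · rw [pow_zero]
      exact measureReal_le_one
  | succ K ih =>
    obtain ⟨ih1, ih2⟩ := ih
    have hset : {x | ∀ k < K + 1, x ∈ B k} = {x | ∀ k < K, x ∈ B k} ∩ B K := by
      ext x
      simp only [Set.mem_ofPred_eq, Set.mem_inter_iff]
      constructor
      · intro hx
        exact ⟨fun k hk => hx k (by omega), hx K (by omega)⟩
      · rintro ⟨h1, h2⟩ k hk
        rcases Nat.lt_succ_iff_lt_or_eq.1 hk with h3 | h3
        · exact h1 k h3
        · subst h3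
          exact h2
    have hmono : ∀ {I J : Set ℕ}, I ⊆ J → sgm ω I ≤ sgm ω J := by
      intro I J hIJ
      unfold sgm
      exact biSup_mono fun s hs => hIJ hs
    have hi : Indep (sgm ω {i | i ≤ K * N}) (sgm ω {i | K * N < i ∧ i ≤ (K + 1) * N}) P := by
      unfold sgm
      refine indep_iSup_of_disjoint (m := fun s : ℕ × (Fin d → ℤ) =>
        MeasurableSpace.comap (fun x => ω s.1 s.2 x) inferInstance)
        (fun s => (h.meas s.1 s.2).comap_le) h.indep.iIndep ?_
      rw [Set.disjoint_left]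
      intro s h1 h2
      simp only [Set.mem_ofPred_eq] at h1 h2
      omega
    constructor
    · rw [hset]
      refine MeasurableSet.inter ?_ ?_
      · refine hmono ?_ _ ih1
        intro i hi
        simp only [Set.mem_ofPred_eq] at hi ⊢
        nlinarith
      · refine hmono ?_ _ (hB K)
        intro i hi
        exact hi.2
    · rw [hset]
      have h1 := (Indep_iff _ _ P).1 hi _ _ ih1 (hB K)
      have h2 : P.real ({x | ∀ k < K, x ∈ B k} ∩ B K) =
          P.real {x | ∀ k < K, x ∈ B k} * P.real (B K) := by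
        unfold Measure.real
        rw [h1, ENNReal.toReal_mul]
      rw [h2, pow_succ]
      exact mul_le_mul ih2 (hq K) measureReal_nonneg (measureReal_nonneg.trans ih2)

end Pool.Agent.Q220.DPW
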