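import Mathlib
import Pool.Agent.Q220.DPW.Law

/-! Directed polymers in windows: a tube is left with overwhelming polymer probability, outside an
event of stretched exponentially small probability, whatever happens after the window. -/

set_option autoImplicit false

open Classical MeasureTheory ProbabilityTheory Filter

namespace Pool.Agent.Q220.DPW

open TH967.DP

variable {d : ℕ}

/-- tubes: `A i` is contained in the sup-norm ball of radius `D` around `c i`, has at most `a`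
elements, and the centre `c` moves with `ℓ¹`-speed at most `v` -/
structure Tube (A : ℕ → Finset (Fin d → ℤ)) (c : ℕ → Fin d → ℤ) (D : ℕ) (a v : ℝ) : Prop where
  near : ∀ i, ∀ y ∈ A i, ∀ k, |y k - c i k| ≤ (D : ℤ)
  card : ∀ i, ((A i).card : ℝ) ≤ a
  speed : ∀ i j, ((∑ k, |c (i + j) k - c i k| : ℤ) : ℝ) ≤ v * j + 2 * d

variable {Ω : Type*} [MeasurableSpace Ω] {P : Measure Ω} [IsProbabilityMeasure P]

lemma one_sub_exp {x y : ℝ} (hx : 0 < x) (hxy : x ≤ y) : x / (1 + x) ≤ 1 - Real.exp (-y) := by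
  have h1 := Real.add_one_le_exp y
  have h2 : Real.exp (-y) ≤ 1 / (1 + y) := by
    rw [Real.exp_neg, ← one_div]
    apply one_div_le_one_div_of_le (by linarith) (by linarith)
  have h3 : x / (1 + x) ≤ y / (1 + y) := by
    rw [div_le_div_iff₀ (by linarith) (by linarith)]
    nlinarith
  have h4 : y / (1 + y) = 1 - 1 / (1 + y) := by
    have : 1 + y ≠ 0 := by linarith
    field_simp
    ring
  linarith

/-- **Core.** -/
theorem core (hd : 0 < d) {κ ρ lam v : ℝ} (hκ : 0 < κ) (hρ : 0 ≤ ρ) (h1 : κ + ρ / 2 < 1 / 2)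
    (h2 : lam + ρ / 2 < 1 / 2) (hv : v < 1) {ω : ℕ → (Fin d → ℤ) → Ω → ℝ} (h : IsEnv P ω)
    (hexp : ∀ b : ℝ, Integrable (fun x => Real.exp (b * ω 1 0 x)) P)
    (hnc : ¬ ∃ c : ℝ, ∀ᵐ x ∂P, ω 1 0 x = c) :
    ∃ s : ℝ, 0 < s ∧ ∃ l0 : ℕ, ∀ l ≥ l0, ∀ ω' : ℕ → (Fin d → ℤ) → Ω → ℝ, IsEnv P ω' →
      P.map (ω' 1 0) = P.map (ω 1 0) → ∀ β : ℝ, (l : ℝ) ^ (-s) ≤ β → β ≤ (l : ℝ) ^ s →
      ∀ (A : ℕ → Finset (Fin d → ℤ)) (c : ℕ → Fin d → ℤ),
        Tube A c ⌊(l : ℝ) ^ κ⌋₊ ((l : ℝ) ^ ρ) v →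
        ∃ B : Set Ω, P.real B ≤ Real.exp (-(l : ℝ) ^ s) ∧
          ∀ x, x ∉ B → ∀ g : (Fin d → ℤ) → ℝ, (∀ y, 0 ≤ g y) →
            Z β (fun i y => ω' i y x) (fun i => (A i : Set (Fin d → ℤ))) l 0 g 0 ≤
              Real.exp (-(l : ℝ) ^ lam) * Z β (fun i y => ω' i y x) (Full d) l 0 g 0 := by
  obtain ⟨a, b, hab, hp, hm⟩ := exists_gap (h.meas 1 0) hexp hnc
  set K0 := 1 / (P.map (ω 1 0)).real (Set.Ici b) + 1 / (P.map (ω 1 0)).real (Set.Iic a) with hK0
  have hK0pos : 0 < K0 := by positivity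
  have hba : 0 < b - a := sub_pos.2 hab
  set mx := max lam κ with hmx
  have hmaxlt : mx < 1 / 2 - ρ / 2 := max_lt (by linarith) (by linarith)
  have hmx1 : lam ≤ mx := le_max_left _ _
  have hmx2 : κ ≤ mx := le_max_right _ _
  set g0 := 1 / 2 - ρ / 2 - mx with hg0
  have hg0pos : 0 < g0 := by rw [hg0]; linarith
  have hg0le : g0 < 1 / 2 := by rw [hg0]; linarith
  set lp := mx + g0 / 2 with hlp
  set al := g0 / 8 with hal
  set e := g0 / 32 with he
  have he0 : 0 < e := by rw [he]; linarith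
  have hal0 : 0 < al := by rw [hal]; linarith
  have hlp0 : 0 < lp := by rw [hlp]; linarith
  have hd1 : (1 : ℝ) ≤ d := by exact_mod_cast hd
  have hv1 : 0 < 1 - v := by linarith
  set C1 := (4 * (d : ℝ) + 4) / (1 - v) + 1 with hC1
  have hC1pos : 0 < C1 := by positivity
  set c2 := (b - a) / (1 + (b - a)) with hc2
  have hc2pos : 0 < c2 := by positivity
  set C3 := 8 * Real.sqrt K0 / c2 with hC3
  have hC3pos : 0 ≤ C3 := by positivity
  set K1 := ∫ x, (Real.exp (ω 1 0 x) + Real.exp (-ω 1 0 x)) ∂P with hK1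
  have hK1pos : 0 ≤ K1 := integral_nonneg (fun x => by positivity)
  have hlogd : 0 ≤ Real.log (2 * d) := Real.log_nonneg (by linarith)
  have q2 := pow_dom (s := κ + al) (t := 1 - e) (by rw [hal, he]; linarith) (8 * C1)
  have q3 := (tendsto_npow (t := 1 - e) (by rw [he]; linarith)).eventually_ge_atTop 4
  have q4 := pow_dom (s := lam) (t := lp) (by rw [hlp]; linarith) 4
  have q5 := pow_dom (s := κ + al + 2 * e) (t := lp) (by rw [hlp, hal, he]; linarith) (4 * (4 * C1))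
  have q6 := pow_dom (s := κ + al) (t := lp) (by rw [hlp, hal]; linarith)
    (4 * (2 * C1 * Real.log (2 * d)))
  have q7 := pow_dom (s := lp / 2) (t := lp) (by linarith) (8 / lp)
  have q8 := pow_dom (s := -al) (t := 0) (by linarith) (2 * Real.exp 2)
  have q9 := pow_dom (s := al + lp + ρ / 2 + 2 * e - 1 / 2) (t := 0)
    (by rw [hlp, hal, he]; linarith) (2 * Real.exp 2 * C3)
  have q10 := pow_dom (s := e / 2) (t := e) (by linarith) 2
  have q11 := G_dom (e := e / 2) (by linarith) (K1 := K1 + 1) (by linarith) d 0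
  obtain ⟨l0, hl0⟩ := eventually_atTop.1 (q2.and (q3.and (q4.and (q5.and (q6.and (q7.and (q8.and
    (q9.and (q10.and (q11.and (eventually_ge_atTop 2)))))))))))
  refine ⟨e / 2, by linarith, l0, fun l hl ω' h' hμ β hβ1 hβ2 A c hTube => ?_⟩
  obtain ⟨r2, r3, r4, r5, r6, r7, r8, r9, r10, r11, hl2⟩ := hl0 l hl
  have hl1 : (1 : ℝ) ≤ l := by
    have : 1 ≤ l := by omega
    exact_mod_cast this
  have hlpos : (0 : ℝ) < l := by linarith
  have hβ1' : (l : ℝ) ^ (-e) ≤ β :=
    (Real.rpow_le_rpow_of_exponent_le hl1 (by linarith)).trans hβ1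
  have hβ2' : β ≤ (l : ℝ) ^ e := hβ2.trans (Real.rpow_le_rpow_of_exponent_le hl1 (by linarith))
  have hβ : 0 < β := lt_of_lt_of_le (Real.rpow_pos_of_pos hlpos _) hβ1
  set D := ⌊(l : ℝ) ^ κ⌋₊ with hD
  set M := ⌊(l : ℝ) ^ al⌋₊ with hM
  set K := ⌊(l : ℝ) ^ e⌋₊ with hK
  have hnκ1 : (1 : ℝ) ≤ (l : ℝ) ^ κ := Real.one_le_rpow hl1 hκ.le
  have hnal1 : (1 : ℝ) ≤ (l : ℝ) ^ al := Real.one_le_rpow hl1 hal0.le
  have hne1 : (1 : ℝ) ≤ (l : ℝ) ^ e := Real.one_le_rpow hl1 he0.le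
  have hD1 : 1 ≤ D := Nat.le_floor (by exact_mod_cast hnκ1)
  have hM1 : 1 ≤ M := Nat.le_floor (by exact_mod_cast hnal1)
  have hK1' : 1 ≤ K := Nat.le_floor (by exact_mod_cast hne1)
  have hDle : (D : ℝ) ≤ (l : ℝ) ^ κ := Nat.floor_le (by positivity)
  have hMle : (M : ℝ) ≤ (l : ℝ) ^ al := Nat.floor_le (by positivity)
  have hMlt : (l : ℝ) ^ al < (M : ℝ) + 1 := Nat.lt_floor_add_one _
  have hKle : (K : ℝ) ≤ (l : ℝ) ^ e := Nat.floor_le (by positivity)
  have hKlt : (l : ℝ) ^ e < (K : ℝ) + 1 := Nat.lt_floor_add_one _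
  have hKR : (1 : ℝ) ≤ K := by exact_mod_cast hK1'
  have hKpos : (0 : ℝ) < K := by linarith
  set N := l / K with hN
  have hKN : K * N ≤ l := Nat.mul_div_le l K
  have hNlow : (l : ℝ) ^ (1 - e) - 1 ≤ N := by
    have h3 : l < (N + 1) * K := by
      rw [hN]
      exact Nat.lt_mul_of_div_lt (Nat.lt_succ_self _) (by omega)
    have h4 : (l : ℝ) < ((N : ℝ) + 1) * K := by exact_mod_cast h3
    have h5 : (l : ℝ) ^ (1 - e) * (l : ℝ) ^ e = l := by
      rw [← Real.rpow_add hlpos]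
      simp
    have h6 : (l : ℝ) ^ (1 - e) * K ≤ (l : ℝ) := by
      calc (l : ℝ) ^ (1 - e) * K ≤ (l : ℝ) ^ (1 - e) * (l : ℝ) ^ e := by gcongr
        _ = l := h5
    have h7 : (l : ℝ) ^ (1 - e) * K < ((N : ℝ) + 1) * K := by linarith
    have h8 := lt_of_mul_lt_mul_right h7 hKpos.le
    linarith
  -- the transition time
  set T := ⌈(2 * (d : ℝ) * D + 4 * D * M + 2 * d) / (1 - v)⌉₊ with hT
  have hTge : 2 * (d : ℝ) * D + 4 * D * M + 2 * d ≤ (1 - v) * T := by
    have := Nat.le_ceil ((2 * (d : ℝ) * D + 4 * D * M + 2 * d) / (1 - v))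
    rw [div_le_iff₀ hv1] at this
    rw [← hT] at this
    linarith
  have hDMpos : (1 : ℝ) ≤ (l : ℝ) ^ κ * (l : ℝ) ^ al := by
    calc (1 : ℝ) = 1 * 1 := by ring
      _ ≤ _ := by gcongr
  have hTle : (T : ℝ) ≤ C1 * (l : ℝ) ^ (κ + al) := by
    have h3 : (T : ℝ) < (2 * (d : ℝ) * D + 4 * D * M + 2 * d) / (1 - v) + 1 :=
      Nat.ceil_lt_add_one (by positivity)
    have a1 : (D : ℝ) * M ≤ (l : ℝ) ^ κ * (l : ℝ) ^ al := by gcongr
    have a2 : (D : ℝ) ≤ (l : ℝ) ^ κ * (l : ℝ) ^ al := by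
      calc (D : ℝ) ≤ (l : ℝ) ^ κ * 1 := by linarith
        _ ≤ _ := by gcongr
    have h4 : 2 * (d : ℝ) * D + 4 * D * M + 2 * d ≤
        (4 * (d : ℝ) + 4) * ((l : ℝ) ^ κ * (l : ℝ) ^ al) := by
      have b1 : 2 * (d : ℝ) * D ≤ 2 * d * ((l : ℝ) ^ κ * (l : ℝ) ^ al) := by gcongr
      have b2 : 2 * (d : ℝ) ≤ 2 * d * ((l : ℝ) ^ κ * (l : ℝ) ^ al) := by
        calc 2 * (d : ℝ) = 2 * d * 1 := by ring
          _ ≤ _ := by gcongr
      have b3 : (4 * (d : ℝ) + 4) * ((l : ℝ) ^ κ * (l : ℝ) ^ al) =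
          2 * d * ((l : ℝ) ^ κ * (l : ℝ) ^ al) + 4 * ((l : ℝ) ^ κ * (l : ℝ) ^ al) +
            2 * d * ((l : ℝ) ^ κ * (l : ℝ) ^ al) := by ring
      have b4 : 4 * (D : ℝ) * M = 4 * ((D : ℝ) * M) := by ring
      rw [b3, b4]
      linarith
    have h5 : (2 * (d : ℝ) * D + 4 * D * M + 2 * d) / (1 - v) ≤
        (4 * (d : ℝ) + 4) / (1 - v) * ((l : ℝ) ^ κ * (l : ℝ) ^ al) := by
      rw [div_mul_eq_mul_div]
      exact div_le_div_of_nonneg_right h4 hv1.le
    rw [Real.rpow_add hlpos, hC1, add_mul, one_mul]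
    linarith
  have hT8 : 8 * (T : ℝ) ≤ (l : ℝ) ^ (1 - e) := by
    have : 8 * C1 * (l : ℝ) ^ (κ + al) = 8 * (C1 * (l : ℝ) ^ (κ + al)) := by ring
    rw [this] at r2
    linarith
  have h2TN : 2 * T ≤ N := by
    have : (2 : ℝ) * T ≤ N := by linarith
    exact_mod_cast this
  obtain ⟨m, hm'⟩ := Nat.exists_eq_add_of_le h2TN
  have hNm : N = T + m + T := by omega
  have hmge : (l : ℝ) ^ (1 - e) / 2 ≤ m := by
    have : (N : ℝ) = 2 * T + m := by exact_mod_cast hm'
    linarith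
  have hm1 : 1 ≤ m := by
    have : (1 : ℝ) ≤ m := by linarith
    exact_mod_cast this
  set L := (l : ℝ) ^ lp with hL
  have hL1 : 1 ≤ L := Real.one_le_rpow hl1 hlp0.le
  set R := (l : ℝ) ^ e with hR
  -- the speed condition
  have hTspeed : ∀ i, ∑ k, |c (i + T) k - c i k| + 2 * d * D + 4 * D * M ≤ (T : ℤ) := by
    intro i
    have h3 := hTube.speed i T
    have h4 : (((∑ k, |c (i + T) k - c i k| + 2 * d * D + 4 * D * M : ℤ)) : ℝ) ≤ ((T : ℤ) : ℝ) := by
      push_cast at h3 ⊢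
      linarith
    exact_mod_cast h4
  -- the cost
  have hcost : ∀ t, (2 * (d : ℝ)) ^ (2 * T) * Real.exp (4 * (β * (T * R))) *
      ((A (t + T)).card : ℝ) ≤ Real.exp (-(l : ℝ) ^ lam) * Real.exp L := by
    intro t
    have e1 : (2 * (d : ℝ)) ^ (2 * T) = Real.exp (2 * T * Real.log (2 * d)) := by
      rw [mul_comm (2 * (T : ℝ)), Real.exp_mul, Real.exp_log (by linarith)]
      rw [← Real.rpow_natCast]
      push_cast
      rfl
    have e2 : ((A (t + T)).card : ℝ) ≤ Real.exp (L / 4) := by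
      refine (hTube.card _).trans ?_
      have h3 : (l : ℝ) ^ ρ ≤ (l : ℝ) ^ (1 : ℝ) := Real.rpow_le_rpow_of_exponent_le hl1 (by linarith)
      rw [Real.rpow_one] at h3
      refine h3.trans ?_
      have h4 : Real.log l ≤ (l : ℝ) ^ (lp / 2) / (lp / 2) :=
        Real.log_le_rpow_div hlpos.le (by linarith)
      have h5 : (l : ℝ) ^ (lp / 2) / (lp / 2) ≤ L / 4 := by
        have : (l : ℝ) ^ (lp / 2) / (lp / 2) = (8 / lp * (l : ℝ) ^ (lp / 2)) / 4 := by
          field_simp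
          ring
        rw [this]
        linarith
      calc (l : ℝ) = Real.exp (Real.log l) := (Real.exp_log hlpos).symm
        _ ≤ _ := Real.exp_le_exp.2 (h4.trans h5)
    have e3 : 2 * (T : ℝ) * Real.log (2 * d) ≤ L / 4 := by
      have : 2 * (T : ℝ) * Real.log (2 * d) ≤ 2 * (C1 * (l : ℝ) ^ (κ + al)) * Real.log (2 * d) := by
        gcongr
      have h6 : 4 * (2 * C1 * Real.log (2 * d)) * (l : ℝ) ^ (κ + al) =
          4 * (2 * (C1 * (l : ℝ) ^ (κ + al)) * Real.log (2 * d)) := by ring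
      rw [h6] at r6
      linarith
    have e4 : 4 * (β * (T * R)) ≤ L / 4 := by
      have h3 : 4 * (β * (T * R)) ≤ 4 * ((l : ℝ) ^ e * ((C1 * (l : ℝ) ^ (κ + al)) * (l : ℝ) ^ e)) := by
        gcongr
      have h4 : (l : ℝ) ^ e * ((C1 * (l : ℝ) ^ (κ + al)) * (l : ℝ) ^ e) =
          C1 * (l : ℝ) ^ (κ + al + 2 * e) := by
        have : κ + al + 2 * e = (κ + al) + e + e := by ring
        rw [this, Real.rpow_add hlpos ((κ + al) + e) e, Real.rpow_add hlpos (κ + al) e]
        ring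
      rw [h4] at h3
      linarith
    rw [e1]
    calc Real.exp (2 * T * Real.log (2 * d)) * Real.exp (4 * (β * (T * R))) *
          ((A (t + T)).card : ℝ)
        ≤ Real.exp (L / 4) * Real.exp (L / 4) * Real.exp (L / 4) := by gcongr
      _ = Real.exp (3 * L / 4) := by rw [← Real.exp_add, ← Real.exp_add]; ring_nf
      _ ≤ Real.exp (-(l : ℝ) ^ lam) * Real.exp L := by
        rw [← Real.exp_add, Real.exp_le_exp]
        linarith
  -- the probability of failure in one sub-window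
  have hq : ∀ t p, P.real (Bd ω' β hd D M A m t p L) ≤ Real.exp (-2) := by
    intro t p
    have hp' : 0 < (P.map (ω' 1 0)).real (Set.Ici b) := by rw [hμ]; exact hp
    have hm'' : 0 < (P.map (ω' 1 0)).real (Set.Iic a) := by rw [hμ]; exact hm
    have b2 := prob_Bd h' hd hβ hab hp' hm'' M t hD1 hm1 hTube.near hTube.card p
      (L := L) (by linarith)
    rw [hμ, ← hK0] at b2
    refine b2.trans ?_
    have b3 : (1 : ℝ) / (M + 1) ≤ (l : ℝ) ^ (-al) := by
      rw [Real.rpow_neg hlpos.le, ← one_div]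
      apply one_div_le_one_div_of_le (by positivity) hMlt.le
    have b4 : c2 * (l : ℝ) ^ (-e) ≤ 1 - Real.exp (-(β * (b - a))) := by
      have x0 : 0 < (b - a) * (l : ℝ) ^ (-e) := by positivity
      have x1 : (b - a) * (l : ℝ) ^ (-e) ≤ β * (b - a) := by
        rw [mul_comm β]
        gcongr
      refine le_trans ?_ (one_sub_exp x0 x1)
      have x2 : (l : ℝ) ^ (-e) ≤ 1 := Real.rpow_le_one_of_one_le_of_nonpos hl1 (by linarith)
      rw [hc2, div_mul_eq_mul_div]
      apply div_le_div_of_nonneg_left x0.le (by positivity)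
      have := mul_le_mul_of_nonneg_left x2 hba.le
      linarith
    have b5 : (l : ℝ) ^ ((1 - e) / 2) / 2 ≤ Real.sqrt m := by
      apply Real.le_sqrt_of_sq_le
      have : ((l : ℝ) ^ ((1 - e) / 2) / 2) ^ 2 = (l : ℝ) ^ (1 - e) / 4 := by
        rw [div_pow, ← Real.rpow_natCast, ← Real.rpow_mul hlpos.le]
        norm_num
      rw [this]
      have := Real.rpow_pos_of_pos hlpos (1 - e)
      linarith
    have b6 : Real.sqrt ((l : ℝ) ^ ρ * K0) = (l : ℝ) ^ (ρ / 2) * Real.sqrt K0 := by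
      rw [Real.sqrt_mul (by positivity), Real.sqrt_eq_rpow ((l : ℝ) ^ ρ), ← Real.rpow_mul hlpos.le]
      ring_nf
    have hle0 : 0 < (l : ℝ) ^ (-e) := by positivity
    have hl12 : 0 < (l : ℝ) ^ ((1 - e) / 2) := by positivity
    have b7 : (M : ℝ) * ((2 * L + 2) * Real.sqrt ((l : ℝ) ^ ρ * K0) /
        ((1 - Real.exp (-(β * (b - a)))) * Real.sqrt m)) ≤
        C3 * (l : ℝ) ^ (al + lp + ρ / 2 + 2 * e - 1 / 2) := by
      calc (M : ℝ) * ((2 * L + 2) * Real.sqrt ((l : ℝ) ^ ρ * K0) /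
            ((1 - Real.exp (-(β * (b - a)))) * Real.sqrt m))
          ≤ (l : ℝ) ^ al * ((4 * L) * ((l : ℝ) ^ (ρ / 2) * Real.sqrt K0) /
            ((c2 * (l : ℝ) ^ (-e)) * ((l : ℝ) ^ ((1 - e) / 2) / 2))) := by
            rw [b6]
            have hden2 : (c2 * (l : ℝ) ^ (-e)) * ((l : ℝ) ^ ((1 - e) / 2) / 2) ≤
                (1 - Real.exp (-(β * (b - a)))) * Real.sqrt m :=
              mul_le_mul b4 b5 (by positivity) (le_trans (by positivity) b4)
            have hnum : (2 * L + 2) * ((l : ℝ) ^ (ρ / 2) * Real.sqrt K0) ≤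
                (4 * L) * ((l : ℝ) ^ (ρ / 2) * Real.sqrt K0) :=
              mul_le_mul_of_nonneg_right (by linarith) (by positivity)
            exact mul_le_mul hMle (div_le_div₀ (by positivity) hnum (by positivity) hden2)
              (div_nonneg (by positivity) (le_trans (by positivity) hden2)) (by positivity)
        _ = C3 * ((l : ℝ) ^ al * L * (l : ℝ) ^ (ρ / 2) /
            ((l : ℝ) ^ (-e) * (l : ℝ) ^ ((1 - e) / 2))) := by
            rw [hC3]
            field_simp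
            ring
        _ = C3 * (l : ℝ) ^ (al + lp + ρ / 2 - (-e + (1 - e) / 2)) := by
            rw [hL, ← Real.rpow_add hlpos, ← Real.rpow_add hlpos, ← Real.rpow_add hlpos,
              ← Real.rpow_sub hlpos]
        _ ≤ C3 * (l : ℝ) ^ (al + lp + ρ / 2 + 2 * e - 1 / 2) := by
            apply mul_le_mul_of_nonneg_left _ hC3pos
            apply Real.rpow_le_rpow_of_exponent_le hl1
            linarith
    rw [Real.rpow_zero] at r8 r9
    have hE2 : 0 < Real.exp 2 := Real.exp_pos 2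
    have b8 : (l : ℝ) ^ (-al) ≤ Real.exp (-2) / 2 := by
      rw [Real.exp_neg, le_div_iff₀ (by norm_num), ← one_div, le_div_iff₀ hE2]
      linarith
    have b9 : C3 * (l : ℝ) ^ (al + lp + ρ / 2 + 2 * e - 1 / 2) ≤ Real.exp (-2) / 2 := by
      rw [Real.exp_neg, le_div_iff₀ (by norm_num), ← one_div, le_div_iff₀ hE2]
      linarith
    linarith
  refine ⟨{x | ¬ Good (fun i y => ω' i y x) l R} ∪
    {x | ∀ k < K, x ∈ Bd ω' β hd D M A m (k * N + T) (((k * N + T : ℕ)) : ZMod 2) L}, ?_, ?_⟩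
  · have hexp' : ∀ b : ℝ, Integrable (fun x => Real.exp (b * ω' 1 0 x)) P := by
      intro b'
      have e1 : Integrable (fun u : ℝ => Real.exp (b' * u)) (P.map (ω' 1 0)) := by
        rw [hμ]
        exact (integrable_map_measure (by fun_prop) (h.meas 1 0).aemeasurable).2 (hexp b')
      exact (integrable_map_measure (by fun_prop) (h'.meas 1 0).aemeasurable).1 e1
    have hK1e : ∫ x, (Real.exp (ω' 1 0 x) + Real.exp (-ω' 1 0 x)) ∂P = K1 := by
      have e1 : ∫ u, (Real.exp u + Real.exp (-u)) ∂(P.map (ω' 1 0)) =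
          ∫ x, (Real.exp (ω' 1 0 x) + Real.exp (-ω' 1 0 x)) ∂P :=
        integral_map (h'.meas 1 0).aemeasurable (by fun_prop)
      have e2 : ∫ u, (Real.exp u + Real.exp (-u)) ∂(P.map (ω 1 0)) =
          ∫ x, (Real.exp (ω 1 0 x) + Real.exp (-ω 1 0 x)) ∂P :=
        integral_map (h.meas 1 0).aemeasurable (by fun_prop)
      rw [← e1, hμ, e2]
    have b1 := good_bound h' hexp' l R
    rw [hK1e] at b1
    have b2 := (prob_all h' (N := N) (B := fun k => Bd ω' β hd D M A m (k * N + T)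
      (((k * N + T : ℕ)) : ZMod 2) L) (fun k => meas_Bd ω' β hd D M A m _ _ L (by
        intro i hi1 hi2
        simp only [Set.mem_ofPred_eq]
        rw [add_mul, one_mul]
        omega)) (fun k => hq _ _) K).2
    have b3 : Real.exp (-2) ^ K ≤ Real.exp (-(l : ℝ) ^ e) := by
      rw [← Real.exp_nat_mul, Real.exp_le_exp]
      linarith
    refine (measureReal_union_le _ _).trans ?_
    have hpow : (1 : ℝ) ≤ (l : ℝ) * (2 * l + 1) ^ d := by
      have : (1 : ℝ) ≤ (2 * l + 1) ^ d := one_le_pow₀ (by linarith)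
      exact one_le_mul_of_one_le_of_one_le hl1 this
    have c1 : Real.exp (-(l : ℝ) ^ e) ≤
        Real.exp (-(l : ℝ) ^ (e / 2)) * Real.exp (-(l : ℝ) ^ (e / 2)) := by
      rw [← Real.exp_add, Real.exp_le_exp]
      linarith
    set E := Real.exp (-(l : ℝ) ^ (e / 2)) with hE
    have hEp : 0 < E := Real.exp_pos _
    rw [neg_zero, Real.rpow_zero] at r11
    set Q := (l : ℝ) * (2 * l + 1) ^ d with hQ
    have hQ0 : 0 ≤ Q := by linarith
    calc P.real {x | ¬ Good (fun i y => ω' i y x) l R} +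
          P.real {x | ∀ k < K, x ∈ Bd ω' β hd D M A m (k * N + T) (((k * N + T : ℕ)) : ZMod 2) L}
        ≤ Q * (K1 * Real.exp (-(l : ℝ) ^ e)) + Real.exp (-(l : ℝ) ^ e) := by
          have := b2.trans b3
          linarith
      _ = (Q * K1 + 1) * Real.exp (-(l : ℝ) ^ e) := by ring
      _ ≤ (Q * K1 + 1) * (E * E) := by gcongr
      _ ≤ (Q * (K1 + 1)) * (E * E) := by
          apply mul_le_mul_of_nonneg_right _ (by positivity)
          rw [mul_add, mul_one]
          linarith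
      _ = (Q * ((K1 + 1) * E)) * E := by ring
      _ ≤ 1 * E := by
          apply mul_le_mul_of_nonneg_right _ hEp.le
          have h0 : 0 ≤ Q * ((K1 + 1) * E) :=
            mul_nonneg hQ0 (mul_nonneg (by linarith) hEp.le)
          linarith
      _ = E := one_mul _
  · intro x hx g hg
    simp only [Set.mem_union, Set.mem_ofPred_eq, not_or, not_not, not_forall] at hx
    obtain ⟨hG, k, hk, hkB⟩ := hx
    unfold Bd at hkB
    simp only [Set.mem_ofPred_eq, not_forall, not_lt] at hkB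
    obtain ⟨j, hj⟩ := hkB
    have hkN : k * N + N ≤ l := by
      have : (k + 1) * N ≤ K * N := Nat.mul_le_mul_right _ (by omega)
      rw [add_mul, one_mul] at this
      omega
    obtain ⟨r, hr⟩ := Nat.exists_eq_add_of_le hkN
    have hlr : l = k * N + (N + r) := by omega
    have hwin := window (d := d) (β := β) (δ := Real.exp (-(l : ℝ) ^ lam))
      (η := fun i y => ω' i y x) (A := fun i => (A i : Set (Fin d → ℤ))) (t := k * N) (N := N)
      (r := r) (Real.exp_pos _).le (by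
        intro y hy hry hpy g' hg'
        have hpar : par y + (T : ZMod 2) = (((k * N + T : ℕ)) : ZMod 2) := by
          rw [hpy]
          push_cast
          ring
        have hsub := sub_g (t := k * N) (m := m) hd hβ hG hTube.near hTspeed
          (by rw [← hNm]; omega) hy hry
          (j := j.val) (by have := j.isLt; omega) (by rw [hpar]; exact hj) (hcost _) hg'
        rw [← hNm] at hsub
        exact hsub) hg
    rw [← hlr] at hwin
    exact hwin

end Pool.Agent.Q220.DPW
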