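import Mathlib
import Pool.Agent.Q220.DPW.Op
import Pool.Agent.TH967.DP.AS

/-! From windows to the polymer measure. -/

set_option autoImplicit false

open Classical MeasureTheory ProbabilityTheory Filter Topology

namespace Pool.Agent.Q220.DPW

open TH967.DP

variable {d : ℕ}

/-- decomposition of the sum over the walks at a window `[t, t + l]` -/
lemma link (β : ℝ) (η : ℕ → (Fin d → ℤ) → ℝ) (A : ℕ → Set (Fin d → ℤ)) (t l r : ℕ)
    (G : (Fin d → ℤ) → ℝ) :
    ∑ w : Fin (t + (l + r)) → Step d, (if (∀ i ≤ l, pos w (t + i) - pos w t ∈ A i) then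
      Real.exp (β * energy η w) * G (pos w (t + (l + r))) else 0) =
    ∑ u : Fin t → Step d, Real.exp (β * energy η u) *
      Z β (shift t (pos u t) η) A l 0
        (Z β (shift t (pos u t) η) (Full d) r l (fun z => G (pos u t + z))) 0 := by
  rw [sum_append]
  apply Finset.sum_congr rfl
  intro u _
  unfold Z
  rw [sum_append, Finset.mul_sum]
  apply Finset.sum_congr rfl
  intro v _
  have hiff : ∀ s : Fin r → Step d, (∀ i ≤ l, pos (Fin.append u (Fin.append v s)) (t + i) -
      pos (Fin.append u (Fin.append v s)) t ∈ A i) ↔ InA A 0 0 v := by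
    intro s
    unfold InA
    apply forall_congr'
    intro i
    apply forall_congr'
    intro hi
    rw [pos_append_right, pos_append_left u _ le_rfl, pos_append_left v s hi,
      add_sub_cancel_left]
    simp only [zero_add]
  simp_rw [hiff]
  by_cases hv : InA A 0 0 v
  · simp_rw [if_pos hv]
    rw [Finset.mul_sum, Finset.mul_sum]
    apply Finset.sum_congr rfl
    intro s _
    rw [if_pos (inA_full _ _ _), energy_append, energy_append, pos_append_right,
      pos_append_right]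
    simp only [shift_shift, zero_add, add_zero]
    rw [mul_add, mul_add, Real.exp_add, Real.exp_add]
    ring
  · simp_rw [if_neg hv]
    simp

/-- comparison of polymer probabilities -/
lemma link_prob (hd : 0 < d) {β δ : ℝ} {η : ℕ → (Fin d → ℤ) → ℝ} {A : ℕ → Set (Fin d → ℤ)}
    {t l r : ℕ}
    (h : ∀ z : Fin d → ℤ, Reach t z → ∀ g : (Fin d → ℤ) → ℝ, (∀ y, 0 ≤ g y) →
      Z β (shift t z η) A l 0 g 0 ≤ δ * Z β (shift t z η) (Full d) l 0 g 0)
    (E : Set (Fin d → ℤ)) :
    polymerProb β η (t + (l + r)) ({w | ∀ i ≤ l, pos w (t + i) - pos w t ∈ A i} ∩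
      {w | pos w (t + (l + r)) ∈ E}) ≤
      δ * polymerProb β η (t + (l + r)) {w | pos w (t + (l + r)) ∈ E} := by
  rw [polymerProb_eq hd, polymerProb_eq hd, ← mul_div_assoc]
  apply div_le_div_of_nonneg_right _ (ZF_pos hd β η _).le
  set G : (Fin d → ℤ) → ℝ := fun y => if y ∈ E then 1 else 0 with hG
  have hG0 : ∀ y, 0 ≤ G y := by
    intro y
    rw [hG]
    simp only
    split_ifs <;> norm_num
  have e1 := link β η A t l r G
  have e2 := link β η (Full d) t l r G
  have f1 : ∀ w : Fin (t + (l + r)) → Step d,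
      (({w | ∀ i ≤ l, pos w (t + i) - pos w t ∈ A i} ∩
        {w | pos w (t + (l + r)) ∈ E} : Set (Fin (t + (l + r)) → Step d))).indicator
        (fun w => Real.exp (β * energy η w)) w =
      (if (∀ i ≤ l, pos w (t + i) - pos w t ∈ A i) then
        Real.exp (β * energy η w) * G (pos w (t + (l + r))) else 0) := by
    intro w
    rw [Set.indicator_apply]
    by_cases h1 : ∀ i ≤ l, pos w (t + i) - pos w t ∈ A i
    · by_cases h2 : pos w (t + (l + r)) ∈ E
      · rw [if_pos (show w ∈ ({w | ∀ i ≤ l, pos w (t + i) - pos w t ∈ A i} ∩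
          {w | pos w (t + (l + r)) ∈ E} : Set (Fin (t + (l + r)) → Step d)) from ⟨h1, h2⟩),
          if_pos h1, hG]
        simp only
        rw [if_pos h2, mul_one]
      · rw [if_neg (fun h' => h2 h'.2), if_pos h1, hG]
        simp only
        rw [if_neg h2, mul_zero]
    · rw [if_neg (fun h' => h1 h'.1), if_neg h1]
  have f2 : ∀ w : Fin (t + (l + r)) → Step d,
      (({w | pos w (t + (l + r)) ∈ E} : Set (Fin (t + (l + r)) → Step d))).indicator
        (fun w => Real.exp (β * energy η w)) w =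
        Real.exp (β * energy η w) * G (pos w (t + (l + r))) := by
    intro w
    rw [Set.indicator_apply]
    by_cases h2 : pos w (t + (l + r)) ∈ E
    · rw [if_pos (show w ∈ {w : Fin (t + (l + r)) → Step d | pos w (t + (l + r)) ∈ E} from h2), hG]
      simp only
      rw [if_pos h2, mul_one]
    · rw [if_neg (show w ∉ {w : Fin (t + (l + r)) → Step d | pos w (t + (l + r)) ∈ E} from h2), hG]
      simp only
      rw [if_neg h2, mul_zero]
  have e3 : ∑ w : Fin (t + (l + r)) → Step d,
      Real.exp (β * energy η w) * G (pos w (t + (l + r))) =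
      ∑ u : Fin t → Step d, Real.exp (β * energy η u) *
      Z β (shift t (pos u t) η) (Full d) l 0
        (Z β (shift t (pos u t) η) (Full d) r l (fun z => G (pos u t + z))) 0 := by
    rw [← e2]
    apply Finset.sum_congr rfl
    intro w _
    rw [if_pos (fun _ _ => Set.mem_univ _)]
  simp_rw [f1, f2]
  rw [e1, e3, Finset.mul_sum]
  apply Finset.sum_le_sum
  intro u _
  have hr : Reach t (pos u t) := by
    have h0 : Reach 0 (0 : Fin d → ℤ) := fun k => by simp
    have := h0.step u le_rfl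
    simpa only [zero_add] using this
  have := h (pos u t) hr _ (fun y => Z_nonneg β (shift t (pos u t) η) (Full d) r l
    (g := fun z => G (pos u t + z)) (fun z => hG0 _) y)
  have hE := Real.exp_pos (β * energy η u)
  calc Real.exp (β * energy η u) * Z β (shift t (pos u t) η) A l 0
        (Z β (shift t (pos u t) η) (Full d) r l (fun z => G (pos u t + z))) 0
      ≤ Real.exp (β * energy η u) * (δ * Z β (shift t (pos u t) η) (Full d) l 0
        (Z β (shift t (pos u t) η) (Full d) r l (fun z => G (pos u t + z))) 0) :=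
        mul_le_mul_of_nonneg_left this hE.le
    _ = _ := by ring

/-- the case of a window which starts at time `0` -/
lemma link_zero (hd : 0 < d) {β δ : ℝ} {η : ℕ → (Fin d → ℤ) → ℝ} {A : ℕ → Set (Fin d → ℤ)}
    {l n : ℕ} (hln : l ≤ n)
    (h : ∀ g : (Fin d → ℤ) → ℝ, (∀ y, 0 ≤ g y) →
      Z β η A l 0 g 0 ≤ δ * Z β η (Full d) l 0 g 0) :
    polymerProb β η n {w | ∀ i ≤ l, pos w i ∈ A i} ≤ δ := by
  obtain ⟨r, rfl⟩ := Nat.exists_eq_add_of_le hln
  have h1 := link_prob (t := 0) (l := l) (r := r) (η := η) (A := A) (β := β) (δ := δ) hd (by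
    intro z hz g hg
    have hz0 : z = 0 := by
      ext k
      have := hz k
      simp only [Nat.cast_zero] at this
      exact abs_nonpos_iff.1 this
    rw [hz0, shift_zero]
    exact h g hg) Set.univ
  have e0 : polymerProb β η (0 + (l + r)) {w | pos w (0 + (l + r)) ∈ (Set.univ : Set (Fin d → ℤ))}
      = 1 := by
    have : {w : Fin (0 + (l + r)) → Step d | pos w (0 + (l + r)) ∈ (Set.univ : Set (Fin d → ℤ))} =
        Set.univ := by ext w; simp
    rw [this]
    exact polymerProb_univ hd β η _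
  rw [e0, mul_one] at h1
  have e1 : ∀ N M : ℕ, N = M → polymerProb β η N {w | ∀ i ≤ l, pos w i ∈ A i} =
      polymerProb β η M {w | ∀ i ≤ l, pos w i ∈ A i} := by
    intro N M hNM
    subst hNM
    rfl
  rw [e1 (l + r) (0 + (l + r)) (by omega)]
  refine le_trans (polymerProb_mono hd β η _ ?_) h1
  intro w hw
  refine ⟨fun i hi => ?_, Set.mem_univ _⟩
  have h0 : pos w 0 = 0 := by
    unfold pos
    simp
  have h1 : pos w (0 + i) = pos w i := congrArg (pos w) (Nat.zero_add i)
  rw [h1, h0, sub_zero]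
  exact hw i hi

variable {Ω : Type*} [MeasurableSpace Ω] {P : Measure Ω} [IsProbabilityMeasure P]

/-- shifted environments -/
lemma env_shift {ω : ℕ → (Fin d → ℤ) → Ω → ℝ} (h : IsEnv P ω) (t : ℕ) (z : Fin d → ℤ) :
    IsEnv P (fun i y => ω (t + i) (z + y)) ∧
      P.map ((fun i y => ω (t + i) (z + y)) 1 0) = P.map (ω 1 0) := by
  refine ⟨⟨fun i y => h.meas _ _, ?_, fun i y => ?_⟩, (h.ident _ _).map_eq⟩
  · have hinj : Function.Injective (fun s : ℕ × (Fin d → ℤ) => (t + s.1, z + s.2)) := by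
      rintro ⟨i, y⟩ ⟨i', y'⟩ he
      simp only [Prod.mk.injEq] at he
      obtain ⟨h1, h2⟩ := he
      have h3 : i = i' := by omega
      have h4 : y = y' := add_left_cancel h2
      rw [h3, h4]
    exact h.indep.precomp hinj
  · exact (h.ident _ _).trans (h.ident _ _).symm

/-- Borel–Cantelli -/
lemma bc {B : ℕ → Set Ω} {f : ℕ → ℝ} (hf : Summable f)
    (h : ∀ᶠ n in atTop, P.real (B n) ≤ f n) : ∀ᵐ x ∂P, ∀ᶠ n in atTop, x ∉ B n := by
  obtain ⟨n0, hn0⟩ := eventually_atTop.1 h
  have hsum : ∑' k, P (B (k + n0)) ≠ ⊤ := by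
    have hle : ∀ k, P (B (k + n0)) ≤ ENNReal.ofReal (f (k + n0)) := by
      intro k
      rw [← ofReal_measureReal (μ := P) (s := B (k + n0))]
      exact ENNReal.ofReal_le_ofReal (hn0 _ (by omega))
    have hsm : Summable (fun k : ℕ => f (k + n0)) := (summable_nat_add_iff n0).2 hf
    exact ne_top_of_le_ne_top hsm.tsum_ofReal_ne_top (ENNReal.tsum_le_tsum hle)
  have hae := ae_eventually_notMem hsum
  filter_upwards [hae] with x hx
  obtain ⟨K, hK⟩ := eventually_atTop.1 hx
  rw [eventually_atTop]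
  refine ⟨K + n0, fun n hn => ?_⟩
  obtain ⟨i, rfl⟩ := Nat.exists_eq_add_of_le' (show n0 ≤ n by omega)
  exact hK i (by omega)

lemma pow_exp {s : ℝ} (hs : 0 < s) (c : ℝ) :
    ∀ᶠ n : ℕ in atTop, (n : ℝ) ^ c * Real.exp (-(n : ℝ) ^ s) ≤ (n : ℝ) ^ (-2 : ℝ) := by
  have h1 := (tendsto_rpow_mul_exp_neg_mul_atTop_nhds_zero ((c + 2) / s) 1 one_pos).comp
    (tendsto_npow hs)
  have h3 := h1.eventually_lt_const (one_pos)
  filter_upwards [h3, eventually_ge_atTop 1] with n hn hn'
  have hn1 : (1 : ℝ) ≤ n := by exact_mod_cast hn'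
  have hn0 : (0 : ℝ) < n := by linarith
  simp only [Function.comp, one_mul, neg_mul] at hn
  rw [← Real.rpow_mul hn0.le, mul_div_cancel₀ _ hs.ne', Real.rpow_add hn0] at hn
  have h4 : (n : ℝ) ^ (-2 : ℝ) * (n : ℝ) ^ (2 : ℝ) = 1 := by
    rw [← Real.rpow_add hn0]; simp
  have h5 : 0 < (n : ℝ) ^ (-2 : ℝ) := by positivity
  calc (n : ℝ) ^ c * Real.exp (-(n : ℝ) ^ s)
      = ((n : ℝ) ^ (-2 : ℝ) * (n : ℝ) ^ (2 : ℝ)) * ((n : ℝ) ^ c * Real.exp (-(n : ℝ) ^ s)) := by
        rw [h4, one_mul]
    _ = (n : ℝ) ^ (-2 : ℝ) * ((n : ℝ) ^ c * (n : ℝ) ^ (2 : ℝ) * Real.exp (-(n : ℝ) ^ s)) := by ring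
    _ ≤ (n : ℝ) ^ (-2 : ℝ) * 1 := by
        apply mul_le_mul_of_nonneg_left hn.le h5.le
    _ = _ := mul_one _

lemma summable_two : Summable (fun n : ℕ => (n : ℝ) ^ (-2 : ℝ)) :=
  Real.summable_nat_rpow.2 (by norm_num)

/-- the box tube around a centre -/
noncomputable def boxT (c : ℕ → Fin d → ℤ) (D : ℕ) : ℕ → Finset (Fin d → ℤ) :=
  fun i => Finset.Icc (fun k => c i k - (D : ℤ)) (fun k => c i k + (D : ℤ))

lemma mem_boxT {c : ℕ → Fin d → ℤ} {D i : ℕ} {y : Fin d → ℤ} :
    y ∈ boxT c D i ↔ ∀ k, |y k - c i k| ≤ (D : ℤ) := by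
  unfold boxT
  rw [Finset.mem_Icc, Pi.le_def, Pi.le_def, ← forall_and]
  apply forall_congr'
  intro k
  rw [abs_le]
  constructor
  · rintro ⟨h1, h2⟩
    constructor <;> linarith
  · rintro ⟨h1, h2⟩
    constructor <;> linarith

lemma card_boxT (c : ℕ → Fin d → ℤ) (D i : ℕ) : (boxT c D i).card = (2 * D + 1) ^ d := by
  unfold boxT
  rw [Pi.card_Icc]
  have : ∀ k : Fin d, (Finset.Icc (c i k - (D : ℤ)) (c i k + (D : ℤ))).card = 2 * D + 1 := by
    intro k
    rw [Int.card_Icc]
    omega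
  simp_rw [this]
  simp

end Pool.Agent.Q220.DPW
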