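import Mathlib
import Pool.Agent.Q220.DPW.Core
import Pool.Agent.Q220.DPW.Link

/-! Families of windows, temperatures and tubes. -/

set_option autoImplicit false

open Classical MeasureTheory ProbabilityTheory Filter Topology

namespace Pool.Agent.Q220.DPW

open TH967.DP

variable {d : ℕ} {Ω : Type*} [MeasurableSpace Ω] {P : Measure Ω} [IsProbabilityMeasure P]

lemma bc_family {J : Type*} (F : ℕ → Finset J) (B : J → Set Ω) {f : ℕ → ℝ} (hf : Summable f)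
    (h : ∀ᶠ n in atTop, ∑ j ∈ F n, P.real (B j) ≤ f n) :
    ∀ᵐ x ∂P, ∀ᶠ n in atTop, ∀ j ∈ F n, x ∉ B j := by
  have := bc (P := P) (B := fun n => ⋃ j ∈ F n, B j) hf (by
    filter_upwards [h] with n hn
    exact (measureReal_biUnion_finset_le _ _).trans hn)
  filter_upwards [this] with x hx
  filter_upwards [hx] with n hn j hj hxj
  apply hn
  simp only [Set.mem_iUnion]
  exact ⟨j, hj, hxj⟩

/-- tubes which are only prescribed up to time `l` -/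
lemma tube_trunc {A : ℕ → Finset (Fin d → ℤ)} {c : ℕ → Fin d → ℤ} {l D : ℕ} {a v : ℝ}
    (hv0 : 0 ≤ v) (ha : 0 ≤ a)
    (near : ∀ i ≤ l, ∀ y ∈ A i, ∀ k, |y k - c i k| ≤ (D : ℤ))
    (card : ∀ i ≤ l, ((A i).card : ℝ) ≤ a)
    (speed : ∀ i j, i ≤ j → j ≤ l → ((∑ k, |c j k - c i k| : ℤ) : ℝ) ≤ v * (j - i) + 2 * d) :
    Tube (fun i => if i ≤ l then A i else ∅) (fun i => c (min i l)) D a v where
  near := by
    intro i y hy k
    by_cases hi : i ≤ l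
    · rw [if_pos hi] at hy
      rw [min_eq_left hi]
      exact near i hi y hy k
    · rw [if_neg hi] at hy
      simp at hy
  card := by
    intro i
    by_cases hi : i ≤ l
    · rw [if_pos hi]
      exact card i hi
    · rw [if_neg hi]
      simpa using ha
  speed := by
    intro i j
    have h1 := speed (min i l) (min (i + j) l) (by omega) (by omega)
    refine h1.trans ?_
    have h2 : ((min (i + j) l : ℕ) : ℝ) ≤ (min i l : ℕ) + j := by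
      have : min (i + j) l ≤ min i l + j := by omega
      exact_mod_cast this
    have h3 : v * (((min (i + j) l : ℕ) : ℝ) - (min i l : ℕ)) ≤ v * j := by
      apply mul_le_mul_of_nonneg_left _ hv0
      linarith
    linarith

lemma int_floor {a : ℤ} {r : ℝ} (h : |(a : ℝ)| ≤ r) : |a| ≤ ((⌊r⌋₊ : ℕ) : ℤ) := by
  have h3 : (a.natAbs : ℝ) ≤ r := by
    rw [Nat.cast_natAbs]
    push_cast
    exact h
  have h4 := Nat.le_floor h3
  rw [Int.abs_eq_natAbs]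
  exact_mod_cast h4

/-- the core for arbitrary data -/
lemma core' (hd : 0 < d) {κ ρ lam v : ℝ} (hκ : 0 < κ) (hρ : 0 ≤ ρ) (h1 : κ + ρ / 2 < 1 / 2)
    (h2 : lam + ρ / 2 < 1 / 2) (hv : v < 1) {ω : ℕ → (Fin d → ℤ) → Ω → ℝ} (h : IsEnv P ω)
    (hexp : ∀ b : ℝ, Integrable (fun x => Real.exp (b * ω 1 0 x)) P)
    (hnc : ¬ ∃ c : ℝ, ∀ᵐ x ∂P, ω 1 0 x = c) :
    ∃ s : ℝ, 0 < s ∧ ∃ l0 : ℕ, ∀ l : ℕ, ∀ (t : ℕ) (z : Fin d → ℤ) (β : ℝ),
      ∀ (A : ℕ → Finset (Fin d → ℤ)) (c : ℕ → Fin d → ℤ),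
        ∃ B : Set Ω, P.real B ≤ Real.exp (-(l : ℝ) ^ s) ∧ (l0 ≤ l → (l : ℝ) ^ (-s) ≤ β →
          β ≤ (l : ℝ) ^ s → Tube A c ⌊(l : ℝ) ^ κ⌋₊ ((l : ℝ) ^ ρ) v →
          ∀ x, x ∉ B → ∀ g : (Fin d → ℤ) → ℝ, (∀ y, 0 ≤ g y) →
            Z β (shift t z (fun i y => ω i y x)) (fun i => (A i : Set (Fin d → ℤ))) l 0 g 0 ≤
              Real.exp (-(l : ℝ) ^ lam) *
                Z β (shift t z (fun i y => ω i y x)) (Full d) l 0 g 0) := by
  obtain ⟨s, hs, l0, hc⟩ := core hd hκ hρ h1 h2 hv h hexp hnc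
  refine ⟨s, hs, l0, fun l t z β A c => ?_⟩
  by_cases hall : l0 ≤ l ∧ (l : ℝ) ^ (-s) ≤ β ∧ β ≤ (l : ℝ) ^ s ∧
      Tube A c ⌊(l : ℝ) ^ κ⌋₊ ((l : ℝ) ^ ρ) v
  · obtain ⟨a1, a2, a3, a4⟩ := hall
    obtain ⟨B, hB1, hB2⟩ := hc l a1 (fun i y => ω (t + i) (z + y)) (env_shift h t z).1
      (env_shift h t z).2 β a2 a3 A c a4
    exact ⟨B, hB1, fun _ _ _ _ => hB2⟩
  · refine ⟨∅, ?_, fun a1 a2 a3 a4 => absurd ⟨a1, a2, a3, a4⟩ hall⟩
    rw [measureReal_empty]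
    exact (Real.exp_pos _).le

lemma eventually_beta {s β : ℝ} (hs : 0 < s) (hβ : 0 < β) :
    ∀ᶠ l : ℕ in atTop, (l : ℝ) ^ (-s) ≤ β ∧ β ≤ (l : ℝ) ^ s := by
  have h1 := (tendsto_npow hs).eventually_ge_atTop β
  have h2 := (tendsto_npow hs).eventually_ge_atTop (1 / β)
  filter_upwards [h1, h2, eventually_ge_atTop 1] with l hl1 hl2 hl3
  have hl0 : (0 : ℝ) < l := by exact_mod_cast hl3
  refine ⟨?_, hl1⟩
  rw [Real.rpow_neg hl0.le, inv_le_comm₀ (by positivity) hβ, ← one_div]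
  exact hl2

end Pool.Agent.Q220.DPW
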